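import Pool.Agent.Lib.MP_b5021c_nt.B.H20.E3Dv
import Pool.Agent.Lib.MP_b5021c_nt.K.H31.Kev
import Pool.Agent.Lib.MP_b5021c_nt.H45.Mmu

/-!
# Board b5, ALL `θ`, K ODD, row O1_CNT (helper12), part 1: the quotient with a content

`Dv3S` for a content `c` with `M c > 1`: over `ℤ`, `k q = g F`, `F ≥ 0`, `k ≤ M g`.
-/

namespace Pool.Agent.B5.O1.H12

open scoped LaurentPolynomial
open Polynomial Pool.Agent.B5 Pool.Agent.B5.H20

section Ev

/-- Evaluation at a non-zero complex number. -/
noncomputable def evW (w : ℂˣ) : RO ℤ →+* ℂ := LaurentPolynomial.eval₂ (Coef.emb : ℤ →+* ℂ) w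

theorem evW_T_mul (w : ℂˣ) (n : ℤ) (p : ℤ[X]) :
    evW w (LaurentPolynomial.T n * toLaurent p) =
      (w : ℂ) ^ n * (p.map (Coef.emb : ℤ →+* ℂ)).eval (w : ℂ) := by
  rw [map_mul]
  congr 1
  · unfold evW
    rw [LaurentPolynomial.eval₂_T]
    simp
  · unfold evW
    rw [LaurentPolynomial.eval₂_toLaurent, eval₂_eq_eval_map]

theorem evW_rsh (w : ℂˣ) (p : RO ℤ) : evW w (rsh p) = evW w⁻¹ p := by
  rw [rsh_int]
  induction p using LaurentPolynomial.induction_on' with
  | add p q hp hq => rw [map_add, map_add, map_add, hp, hq]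
  | C_mul_T n a =>
    rw [map_mul, LaurentPolynomial.invert_C, LaurentPolynomial.invert_T, map_mul, map_mul]
    unfold evW
    rw [LaurentPolynomial.eval₂_C, LaurentPolynomial.eval₂_C, LaurentPolynomial.eval₂_T,
      LaurentPolynomial.eval₂_T, inv_zpow, zpow_neg]

end Ev

section Main

variable {L : Type} [AddCommGroup L] [Module.Free ℤ L] [Module.Finite ℤ L]

/-- DV3 with a content: `g` of class `V(N)` instead of `M g = 1`. -/
theorem dvK (nn : Nn3S) (ke : KerEvS) (mm : MmulS) (mv : MVS) (e1s : E1S) (db : Db3S) (er : EvRS)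
    (zf : ZfinS) (q : AO ℤ L) (g U : RO ℤ) (hq : q ≠ 0) (hg : g ≠ 0) (N : ℝ) (hgV : ClassV N g)
    (hrq : q * cst (rsh g) = sharp q * cst g) (hN : NnT (q * cst (rsh g)))
    (m : ℤ) (v : ℤ[X]) (hv : g * U = LaurentPolynomial.T m * toLaurent v)
    (hd : ∀ z0 : ℂ, ‖z0‖ = 1 → ¬ (X - C z0) ^ 2 ∣ v.map Coef.emb) :
    ∃ (k : ℕ) (F : AO ℤ L), 1 ≤ k ∧ (k : ℝ) ≤ M g ∧
      cst (LaurentPolynomial.C (k : ℤ)) * q = cst g * F ∧ NnT F := by
  obtain ⟨d, g1, q1, e1, e2, hc⟩ := content q g
  have hd0 : d ≠ 0 := by rintro rfl; rw [zero_mul] at e1; exact hg e1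
  have hg1 : g1 ≠ 0 := by rintro rfl; rw [mul_zero] at e1; exact hg e1
  have hq1 : q1 ≠ 0 := by rintro rfl; rw [mul_zero] at e2; exact hq e2
  have erN := (er ℤ).2.2.1
  -- the element `H`
  set H : AO ℤ L := cst (rsh g1) * q1 with hH
  have hevH : ∀ z u, ev z u H = (starRingEnd ℂ) (evR z g1) * ev z u q1 := by
    intro z u; rw [hH, ev_cst_mul, erN]
  have hHN : NnT H := by
    intro z u
    refine of_dense zf d hd0
      (fun z => (ev z u H).im = 0 ∧ 0 ≤ (ev z u H).re) ?_ ?_ z
    · have hcont := continuous_ev er u H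
      exact (isClosed_eq (Complex.continuous_im.comp hcont) continuous_const).inter
        (isClosed_le continuous_const (Complex.continuous_re.comp hcont))
    · intro z hz
      have h1 := hN z u
      have h2 : ev z u (q * cst (rsh g)) = ((‖evR z d‖ ^ 2 : ℝ) : ℂ) * ev z u H := by
        rw [mul_comm q, ev_cst_mul, erN, hevH]
        conv_lhs => rw [e2, ev_cst_mul, e1, map_mul, map_mul]
        have h3 : (starRingEnd ℂ) (evR z d) * evR z d = ((‖evR z d‖ ^ 2 : ℝ) : ℂ) := by
          rw [mul_comm, Complex.mul_conj, Complex.normSq_eq_norm_sq]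
        rw [← h3]; ring
      rw [h2, Complex.im_ofReal_mul, Complex.re_ofReal_mul] at h1
      have h4 : 0 < ‖evR z d‖ ^ 2 := by positivity
      constructor
      · exact (mul_eq_zero.mp h1.1).resolve_left h4.ne'
      · exact nonneg_of_mul_nonneg_right h1.2 h4
  -- coefficients
  have hcoefH : ∀ a, H.coeff a = rsh g1 * q1.coeff a := by
    intro a; rw [hH, H71.cst_mul_coeff]
  have hcoef : ∀ (z : Circle) (a : L), ‖evR z g1‖ * ‖evR z (q1.coeff a)‖ ≤
      ‖evR z g1‖ * ‖evR z (q1.coeff 0)‖ := by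
    intro z a
    by_cases ha : a = 0
    · rw [ha]
    have h1 : ‖(spec z H).coeff a‖ ≤ ((spec z H).coeff 0).re := by
      by_cases hp : spec z H = 0
      · rw [hp]; simp
      · exact ((nn L (spec z H) hp (fun u => hHN z u)).2 a ha).le
    have h2 := h1.trans (Complex.re_le_norm _)
    rw [spec_coeff, spec_coeff, hcoefH, hcoefH, map_mul, map_mul, norm_mul, norm_mul, erN,
      RCLike.norm_conj] at h2
    exact h2
  have hcoef2 : ∀ (a : L) (z : Circle), ‖evR z (q1.coeff a)‖ ≤ ‖evR z (q1.coeff 0)‖ := by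
    intro a
    refine of_dense zf g1 hg1 _ ?_ ?_
    · exact isClosed_le ((er ℤ).2.2.2 _).norm ((er ℤ).2.2.2 _).norm
    · intro z hz
      exact le_of_mul_le_mul_left (hcoef z a) (norm_pos_iff.mpr hz)
  -- `q1_0 conj g1` is real and nonnegative
  have hreal : q1 * cst (rsh g1) = sharp q1 * cst g1 := by
    have h1 : sharp (cst d * q1) = cst (rsh d) * sharp q1 := by
      rw [map_mul]
      congr 1
      apply AddMonoidAlgebra.ext
      apply Finsupp.ext
      intro a
      rw [sharp_coeff']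
      simp only [cst, AddMonoidAlgebra.coeff_single]
      by_cases ha : a = 0
      · simp [ha]
      · have h0 : ¬ (0 : L) = -a := by
          intro h; exact ha (neg_eq_zero.mp h.symm)
        rw [Finsupp.single_eq_of_ne (Ne.symm h0), Finsupp.single_eq_of_ne ha, map_zero]
    have h2 : cst (d * rsh d) * (q1 * cst (rsh g1)) = cst (d * rsh d) * (sharp q1 * cst g1) := by
      have h3 := hrq
      rw [e2, h1, e1, map_mul, H71.cst_mul, H71.cst_mul] at h3
      rw [H71.cst_mul]
      calc cst d * cst (rsh d) * (q1 * cst (rsh g1))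
          = cst d * q1 * (cst (rsh d) * cst (rsh g1)) := by ring
        _ = _ := h3
        _ = _ := by ring
    have hrd : rsh d ≠ 0 := by
      intro h
      have h5 : ∀ z : Circle, evR z d = 0 := by
        intro z
        have h6 := erN z d
        rw [h, map_zero] at h6
        exact (map_eq_zero _).mp h6.symm
      have h6 := zf ℤ d hd0
      have h7 : {z : Circle | evR z d = 0} = Set.univ := by
        ext z; simp [h5 z]
      rw [h7] at h6
      have h8 := H49.dense_compl_finite _ h6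
      rw [Set.compl_univ] at h8
      have h9 := h8.nonempty
      exact Set.not_nonempty_empty h9
    have h4 : (cst (d * rsh d) : AO ℤ L) ≠ 0 := by
      intro h
      have h5 := congrArg (fun G : AO ℤ L => G.coeff 0) h
      simp only [cst, AddMonoidAlgebra.coeff_single, Finsupp.single_eq_same,
        AddMonoidAlgebra.coeff_zero, Finsupp.coe_zero, Pi.zero_apply] at h5
      exact (mul_ne_zero hd0 hrd) h5
    exact mul_left_cancel₀ h4 h2
  have hreal0 : ∀ z : Circle, (evR z (q1.coeff 0) * (starRingEnd ℂ) (evR z g1)).im = 0 ∧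
      0 ≤ (evR z (q1.coeff 0) * (starRingEnd ℂ) (evR z g1)).re := by
    intro z
    have h1 := congrArg (fun G : AO ℤ L => evR z (G.coeff 0)) hreal
    simp only [mul_comm q1, mul_comm (sharp q1), H71.cst_mul_coeff, sharp_coeff', neg_zero,
      map_mul, erN] at h1
    constructor
    · rw [← Complex.conj_eq_iff_im, map_mul, Complex.conj_conj, mul_comm, ← h1]; ring
    · by_cases hp : spec z H = 0
      · have h2 : (spec z H).coeff 0 = 0 := by rw [hp]; simp
        rw [spec_coeff, hcoefH, map_mul, erN] at h2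
        rw [mul_comm, h2]; simp
      · have h2 := (nn L (spec z H) hp (fun u => hHN z u)).1
        rw [spec_coeff, hcoefH, map_mul, erN] at h2
        rw [mul_comm]; exact h2.le
  -- the claim: `g1` has no zero on the circle
  have hclaim : ∀ z : Circle, evR z g1 ≠ 0 := by
    intro z0 hz0
    classical
    -- some coefficient of `q1` does not vanish
    have h1 : ∃ a, evR z0 (q1.coeff a) ≠ 0 := by
      by_contra hcon
      push Not at hcon
      obtain ⟨c, hcu, hcd⟩ := ke ℤ z0 (insert g1 (q1.coeff.support.image fun a => q1.coeff a))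
        ⟨g1, Finset.mem_insert_self _ _, hg1⟩ (by
          intro r hr
          rcases Finset.mem_insert.mp hr with rfl | hr
          · exact hz0
          · obtain ⟨a, _, rfl⟩ := Finset.mem_image.mp hr
            exact hcon a)
      refine hcu (hc c (hcd _ (Finset.mem_insert_self _ _)) fun a => ?_)
      by_cases ha : q1.coeff a = 0
      · rw [ha]; exact dvd_zero c
      · exact hcd _ (Finset.mem_insert_of_mem (Finset.mem_image.mpr ⟨a,
          Finsupp.mem_support_iff.mpr ha, rfl⟩))
    obtain ⟨a, ha⟩ := h1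
    have h2 : evR z0 (q1.coeff 0) ≠ 0 := by
      intro h
      have := hcoef2 a z0
      rw [h, norm_zero] at this
      exact ha (norm_le_zero_iff.mp this)
    have h20 : q1.coeff 0 ≠ 0 := by
      intro h; rw [h, map_zero] at h2; exact h2 rfl
    obtain ⟨k, b, -, hb⟩ := H70.normalO g1 hg1
    obtain ⟨k', a', -, ha'⟩ := H70.normalO (q1.coeff 0) h20
    have hzn : (z0 : ℂ) ≠ 0 := Circle.coe_ne_zero z0
    have h3 : (X - C (z0 : ℂ)) ^ 2 ∣ b.map (Coef.emb : ℤ →+* ℂ) := by
      refine db (a'.map Coef.emb) (b.map Coef.emb) (k' - k) z0 (Circle.norm_coe z0) ?_ ?_ ?_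
      · intro z hz
        set zc : Circle := ⟨z, mem_sphere_zero_iff_norm.mpr hz⟩ with hzc
        have hzc' : (zc : ℂ) = z := rfl
        have h4 := hreal0 zc
        have h5 : evR zc (q1.coeff 0) * (starRingEnd ℂ) (evR zc g1) =
            (a'.map Coef.emb).eval z * (starRingEnd ℂ) ((b.map Coef.emb).eval z) * z ^ (k' - k) := by
          rw [ha', hb, H70.evR_T_mul, H70.evR_T_mul, hzc', map_mul, map_zpow₀]
          have h6 : (starRingEnd ℂ) z = z⁻¹ := by
            rw [Complex.inv_def, Complex.normSq_eq_norm_sq, hz]; simp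
          have hz0' : z ≠ 0 := by rintro rfl; simp at hz
          rw [h6, inv_zpow', zpow_sub₀ hz0', zpow_neg]
          field_simp
        rw [h5] at h4
        exact h4
      · have h4 := hz0
        rw [hb, H70.evR_T_mul] at h4
        exact (mul_eq_zero.mp h4).resolve_left (zpow_ne_zero _ hzn)
      · intro h4
        apply h2
        rw [ha', H70.evR_T_mul, h4, mul_zero]
    -- transfer to `v`
    by_cases hU : d * U = 0
    · have hv0 : (toLaurent v : RO ℤ) = 0 := by
        have h5 : (LaurentPolynomial.T m * toLaurent v : RO ℤ) = 0 := by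
          rw [← hv, e1]
          calc d * g1 * U = g1 * (d * U) := by ring
            _ = 0 := by rw [hU, mul_zero]
        have h6 := congrArg (fun q : RO ℤ => LaurentPolynomial.T (-m) * q) h5
        simp only [mul_zero, ← mul_assoc, ← LaurentPolynomial.T_add, neg_add_cancel,
          LaurentPolynomial.T_zero, one_mul] at h6
        exact h6
      have hv1 : v = 0 := by
        apply Polynomial.toLaurent_injective
        rw [hv0, map_zero]
      refine hd z0 (Circle.norm_coe z0) ?_
      rw [hv1, Polynomial.map_zero]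
      exact dvd_zero _
    obtain ⟨j, w, -, hw⟩ := H70.normalO (d * U) hU
    have h5 : (LaurentPolynomial.T m * toLaurent v : RO ℤ) =
        LaurentPolynomial.T (k + j) * toLaurent (b * w) := by
      rw [← hv, e1]
      calc d * g1 * U = g1 * (d * U) := by ring
        _ = _ := by
          rw [hb, hw, LaurentPolynomial.T_add, map_mul]; ring
    -- a common shift
    obtain ⟨r, s, hrs⟩ : ∃ r s : ℕ, (r : ℤ) - m = s - (k + j) := by
      refine ⟨(m - (k + j)).toNat, (-(m - (k + j))).toNat, ?_⟩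
      omega
    have h6 : X ^ r * v = X ^ s * (b * w) := by
      apply Polynomial.toLaurent_injective
      rw [map_mul, map_mul, Polynomial.toLaurent_X_pow, Polynomial.toLaurent_X_pow]
      have h7 := congrArg (fun q : RO ℤ => LaurentPolynomial.T ((r : ℤ) - m) * q) h5
      simp only [← mul_assoc, ← LaurentPolynomial.T_add] at h7
      rw [sub_add_cancel, hrs, sub_add_cancel] at h7
      exact h7
    have h8 : (X - C (z0 : ℂ)) ^ 2 ∣ X ^ r * v.map (Coef.emb : ℤ →+* ℂ) := by
      have h9 := congrArg (Polynomial.map (Coef.emb : ℤ →+* ℂ)) h6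
      simp only [Polynomial.map_mul, Polynomial.map_pow, Polynomial.map_X] at h9
      rw [h9]
      exact dvd_mul_of_dvd_right (dvd_mul_of_dvd_left h3 _) _
    have h10 : IsCoprime ((X - C (z0 : ℂ)) ^ 2) (X ^ r) := by
      apply IsCoprime.pow
      have := Polynomial.isCoprime_X_sub_C_of_isUnit_sub (R := ℂ) (a := z0) (b := 0)
        (by rw [sub_zero]; exact isUnit_iff_ne_zero.mpr hzn)
      rwa [C_0, sub_zero] at this
    exact hd z0 (Circle.norm_coe z0) (h10.dvd_of_dvd_mul_left h8)
  -- `g1` has no zero at all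
  have hg1V : ∃ N2, ClassV N2 g1 := by
    have h1 := hgV
    rw [e1] at h1
    obtain ⟨N1, N2, -, h2, -⟩ := (e1s ℤ).1 N d g1 h1
    exact ⟨N2, h2⟩
  obtain ⟨N2, hN2⟩ := hg1V
  have hMg1 : M g1 = N2 := ((mv ℤ).1 N2 g1 hN2).2
  obtain ⟨hN21, n, p, hp, hp0, hpz⟩ := hN2
  have hp0' : p.coeff 0 ≠ 0 := by
    intro h0
    rw [h0, map_zero, norm_zero] at hp0
    linarith
  have hall : ∀ w : ℂ, w ≠ 0 → (p.map (Coef.emb : ℤ →+* ℂ)).eval w ≠ 0 := by
    intro w hw hpw
    rcases lt_trichotomy ‖w‖ 1 with h1 | h1 | h1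
    · exact hpz w h1 hpw
    · apply hclaim ⟨w, mem_sphere_zero_iff_norm.mpr h1⟩
      rw [hp, H70.evR_T_mul]
      change w ^ n * (p.map (Coef.emb : ℤ →+* ℂ)).eval w = 0
      rw [hpw, mul_zero]
    · -- common zero outside the disc
      obtain ⟨W, hW⟩ : ∃ W : ℂˣ, (W : ℂ) = w := ⟨Units.mk0 w hw, rfl⟩
      have hW' : ((W⁻¹ : ℂˣ) : ℂ) = w⁻¹ := by rw [Units.val_inv_eq_inv_val, hW]
      have hg1W : evW W g1 = 0 := by rw [hp, evW_T_mul, hW, hpw, mul_zero]
      have hg1W' : evW W (rsh g1) ≠ 0 := by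
        rw [evW_rsh, hp, evW_T_mul, hW']
        refine mul_ne_zero (zpow_ne_zero _ (inv_ne_zero hw)) (hpz _ ?_)
        rw [norm_inv]
        exact inv_lt_one_of_one_lt₀ h1
      have hq1W : ∀ a, evW W (q1.coeff a) = 0 := by
        intro a
        have h2 := congrArg (fun G : AO ℤ L => evW W (G.coeff a)) hreal
        simp only [mul_comm q1, mul_comm (sharp q1), H71.cst_mul_coeff, map_mul] at h2
        rw [hg1W, zero_mul] at h2
        exact (mul_eq_zero.mp h2).resolve_left hg1W'
      have hpne : p ≠ 0 := by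
        rintro rfl
        exact hp0' (coeff_zero 0)
      obtain ⟨g', hg'w, hg'd⟩ := Kev.poly (O := ℤ) w p hpne (by
        rw [eval₂_eq_eval_map]; exact hpw)
      have hdvd : ∀ f : RO ℤ, evW W f = 0 → toLaurent g' ∣ f := by
        intro f hf
        by_cases hf0 : f = 0
        · rw [hf0]; exact dvd_zero _
        obtain ⟨k, r, -, hr⟩ := H70.normalO f hf0
        rw [hr, evW_T_mul, hW] at hf
        have h3 := (mul_eq_zero.mp hf).resolve_left (zpow_ne_zero _ hw)
        have h4 : toLaurent g' ∣ toLaurent r := map_dvd _ (hg'd r (by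
          rw [eval₂_eq_eval_map]; exact h3))
        rw [hr]
        exact Dvd.dvd.mul_left h4 _
      have hu : IsUnit (toLaurent g' : RO ℤ) := hc _ (hdvd g1 hg1W) (fun a => hdvd _ (hq1W a))
      have h5 : IsUnit (evW W (toLaurent g')) := hu.map (evW W)
      have h6 : evW W (toLaurent g') = 0 := by
        unfold evW
        rw [LaurentPolynomial.eval₂_toLaurent, hW]
        exact hg'w
      rw [h6] at h5
      exact not_isUnit_zero h5
  -- so it is a constant
  have hdeg : (p.map (Coef.emb : ℤ →+* ℂ)).degree ≤ 0 := by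
    by_contra hcon
    push Not at hcon
    obtain ⟨w, hw⟩ := Complex.exists_root hcon
    by_cases hw0 : w = 0
    · rw [hw0] at hw
      have h1 : (p.map (Coef.emb : ℤ →+* ℂ)).coeff 0 = 0 := by
        rw [coeff_zero_eq_eval_zero]; exact hw
      rw [coeff_map] at h1
      exact hp0' ((injective_iff_map_eq_zero _).1 emb_inj _ h1)
    · exact hall w hw0 hw
  have hpC : p = C (p.coeff 0) := by
    rw [degree_map_eq_of_injective emb_inj] at hdeg
    exact eq_C_of_degree_le_zero hdeg
  set k0 : ℤ := p.coeff 0 with hk0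
  have hnk : (N2 : ℝ) = |(k0 : ℝ)| := by
    rw [← hp0]
    change ‖((Int.castRingHom ℂ) k0)‖ = _
    rw [eq_intCast, Complex.norm_intCast]
  have hg1k : g1 = LaurentPolynomial.T n * LaurentPolynomial.C k0 := by
    rw [hp, hpC, toLaurent_C]
  obtain ⟨sg, hsg, hsgk⟩ : ∃ sg : ℤ, sg * sg = 1 ∧ (k0.natAbs : ℤ) = sg * k0 := by
    rcases le_total 0 k0 with h1 | h1
    · exact ⟨1, by norm_num, by rw [Int.natAbs_of_nonneg h1, one_mul]⟩
    · exact ⟨-1, by norm_num, by rw [Int.ofNat_natAbs_of_nonpos h1]; ring⟩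
  have hk1 : 1 ≤ k0.natAbs := by
    have : k0.natAbs ≠ 0 := fun h => hp0' (Int.natAbs_eq_zero.mp h)
    omega
  have hkR : ((k0.natAbs : ℕ) : ℝ) = |(k0 : ℝ)| := by
    rw [Nat.cast_natAbs, Int.cast_abs]
  refine ⟨k0.natAbs, cst (LaurentPolynomial.C sg * LaurentPolynomial.T (-n)) * q1, hk1, ?_, ?_, ?_⟩
  · rw [hkR, ← hnk, ← hMg1]
    conv_rhs => rw [e1, (mm ℤ).1 d g1 hd0 hg1]
    have h2 := (mm ℤ).2.1 d
    have h3 := (mm ℤ).2.1 g1
    nlinarith
  · have h1 : g * (LaurentPolynomial.C sg * LaurentPolynomial.T (-n)) =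
        LaurentPolynomial.C ((k0.natAbs : ℕ) : ℤ) * d := by
      have h2 : (LaurentPolynomial.T n * LaurentPolynomial.T (-n) : RO ℤ) = 1 := by
        rw [← LaurentPolynomial.T_add, add_neg_cancel, LaurentPolynomial.T_zero]
      rw [e1, hg1k, hsgk, map_mul]
      linear_combination (d * LaurentPolynomial.C k0 * LaurentPolynomial.C sg) * h2
    conv_lhs => rw [e2]
    rw [← mul_assoc, ← mul_assoc, ← H71.cst_mul, ← H71.cst_mul, h1]
  · intro z u
    -- `|k0| F = H`
    have hkp : (0 : ℝ) < (k0.natAbs : ℝ) := by exact_mod_cast hk1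
    have h1 : ev z u H = ((k0.natAbs : ℝ) : ℂ) *
        ev z u (cst (LaurentPolynomial.C sg * LaurentPolynomial.T (-n)) * q1) := by
      rw [hevH, ev_cst_mul, ← erN, hg1k, map_mul, map_mul, map_mul]
      have h2 : evR z (rsh (LaurentPolynomial.T n : RO ℤ)) = evR z (LaurentPolynomial.T (-n) : RO ℤ) := by
        rw [rsh_int, LaurentPolynomial.invert_T]
      have h3 : evR z (rsh (LaurentPolynomial.C k0 : RO ℤ)) = (k0 : ℂ) := by
        rw [rsh_int, LaurentPolynomial.invert_C]
        unfold evR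
        rw [LaurentPolynomial.eval₂_C]
        rfl
      have h4 : evR z (LaurentPolynomial.C sg : RO ℤ) = (sg : ℂ) := by
        unfold evR
        rw [LaurentPolynomial.eval₂_C]
        rfl
      rw [h2, h3, h4]
      have h5 : ((k0.natAbs : ℝ) : ℂ) = (sg : ℂ) * k0 := by
        have h6 : ((k0.natAbs : ℝ) : ℂ) = (((k0.natAbs : ℕ) : ℤ) : ℂ) := by
          rw [Complex.ofReal_natCast, Int.cast_natCast]
        rw [h6, hsgk]; push_cast; rfl
      have h7 : (sg : ℂ) * sg = 1 := by exact_mod_cast hsg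
      rw [h5]
      linear_combination (-(k0 : ℂ) * evR z (LaurentPolynomial.T (-n) : RO ℤ) * ev z u q1) * h7
    have h2 := hHN z u
    rw [h1, Complex.im_ofReal_mul, Complex.re_ofReal_mul] at h2
    exact ⟨(mul_eq_zero.mp h2.1).resolve_left hkp.ne', nonneg_of_mul_nonneg_right h2.2 hkp⟩

end Main

end Pool.Agent.B5.O1.H12
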