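import Pool.Agent.Lib.MP_b5021c_nt.IfaceEF
import Pool.Agent.Lib.MP_b5021c_nt.B.H71.I2c

/-!
# Board b5, ALL `θ`, K ODD, row O1_CNT (helper12), part 4: products of z-free factors

Factors in independent sublattices: the product of z-free elements is z-free.
-/

namespace Pool.Agent.B5.O1.H12

open scoped LaurentPolynomial
open AddMonoidAlgebra Pool.Agent.B5 Pool.Agent.B5.H71

set_option linter.unusedSectionVars false

section Lat

/-- An injective map between free modules of the same rank has a left inverse up to an integer. -/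
theorem left_inv {M K : Type} [AddCommGroup M] [Module.Free ℤ M] [Module.Finite ℤ M]
    [AddCommGroup K] [Module.Free ℤ K] [Module.Finite ℤ K] (Φ : M →ₗ[ℤ] K)
    (hinj : Function.Injective Φ) (hr : Module.finrank ℤ M = Module.finrank ℤ K) :
    ∃ (d : ℤ) (Ψ : K →ₗ[ℤ] M), d ≠ 0 ∧ ∀ x, Ψ (Φ x) = d • x := by
  classical
  let b := Module.finBasis ℤ M
  let e := (Module.finBasis ℤ K).reindex (finCongr hr.symm)
  let A := LinearMap.toMatrix b e Φ
  refine ⟨A.det, Matrix.toLin e b A.adjugate, ?_, ?_⟩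
  · intro h0
    obtain ⟨v, hv, hv0⟩ := Matrix.exists_mulVec_eq_zero_iff.mpr h0
    apply hv
    have h1 : Φ (b.equivFun.symm v) = 0 := by
      apply e.equivFun.injective
      rw [map_zero]
      funext i
      have h2 := LinearMap.toMatrix_mulVec_repr b e Φ (b.equivFun.symm v)
      have h3 : (b.repr (b.equivFun.symm v) : Fin (Module.finrank ℤ M) → ℤ) = v := by
        funext i
        exact congrFun (b.equivFun.apply_symm_apply v) i
      rw [h3] at h2
      have h4 := congrFun h2 i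
      change (e.repr (Φ (b.equivFun.symm v))) i = 0
      rw [← h4]
      exact congrFun hv0 i
    have h5 := hinj (h1.trans (map_zero Φ).symm)
    exact b.equivFun.symm.injective (h5.trans (map_zero _).symm)
  · intro x
    have h1 : Matrix.toLin e b A.adjugate ∘ₗ Φ = A.det • LinearMap.id := by
      apply (LinearMap.toMatrix b b).injective
      rw [LinearMap.toMatrix_comp b e b, LinearMap.toMatrix_toLin, map_smul, LinearMap.toMatrix_id]
      exact Matrix.adjugate_mul A
    exact LinearMap.congr_fun h1 x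

variable {K : Type} [AddCommGroup K] [Module.Free ℤ K] [Module.Finite ℤ K]

/-- Functionals on independent sublattices extend, up to a common multiple. -/
theorem glue {n : ℕ} (U : Fin n → Submodule ℤ K) (l : ∀ i, U i →+ ℤ) (q : Fin n → ℕ)
    (hq : ∀ i, 0 < q i) (hsum : ∑ i, Module.finrank ℤ (U i) = Module.finrank ℤ K)
    (hfull : Module.finrank ℤ K ≤ Module.finrank ℤ (⨆ i, U i : Submodule ℤ K)) :
    ∃ (Q : ℕ) (f : K →+ ℤ), 0 < Q ∧ ∀ (i : Fin n) (a : U i), (q i : ℤ) * f (a : K) = Q * l i a := by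
  classical
  -- the sum map
  let Φ : (∀ i, U i) →ₗ[ℤ] K := LinearMap.lsum ℤ (fun i => U i) ℤ (fun i => (U i).subtype)
  have hΦ : ∀ i (a : U i), Φ (Pi.single i a) = a := by
    intro i a
    change (LinearMap.lsum ℤ (fun i => U i) ℤ (fun i => (U i).subtype)) (Pi.single i a) = _
    rw [LinearMap.lsum_piSingle]
    rfl
  have hle : (⨆ i, U i) ≤ LinearMap.range Φ := by
    apply iSup_le
    intro i a ha
    exact ⟨Pi.single i ⟨a, ha⟩, hΦ i ⟨a, ha⟩⟩
  have hfr : Module.finrank ℤ (∀ i, U i) = Module.finrank ℤ K := by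
    rw [Module.finrank_pi_fintype, hsum]
  have hrk : Module.finrank ℤ K ≤ Module.finrank ℤ (LinearMap.range Φ) :=
    hfull.trans (Submodule.finrank_mono hle)
  have hker : Module.finrank ℤ (LinearMap.ker Φ) = 0 := by
    have h1 := Submodule.finrank_quotient_add_finrank (LinearMap.ker Φ)
    have h2 := (Φ.quotKerEquivRange).finrank_eq
    omega
  have hinj : Function.Injective Φ := by
    rw [← LinearMap.ker_eq_bot]
    have h1 : Module.Free ℤ (LinearMap.ker Φ) := inferInstance
    have h2 := Module.finrank_zero_iff.mp hker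
    rw [Submodule.eq_bot_iff]
    intro x hx
    have h3 : (⟨x, hx⟩ : LinearMap.ker Φ) = 0 := Subsingleton.elim _ _
    exact congrArg Subtype.val h3
  obtain ⟨d, Ψ, hd, hΨ⟩ := left_inv Φ hinj hfr
  -- the functional
  let g : (∀ i, U i) →+ ℤ := ∑ i, ((∏ j ∈ Finset.univ.erase i, (q j : ℤ)) •
    ((l i).comp (Pi.evalAddMonoidHom (fun i => U i) i)))
  have hg : ∀ i (a : U i), (q i : ℤ) * g (Pi.single i a) = (∏ j, (q j : ℤ)) * l i a := by
    intro i a
    have h1 : g (Pi.single i a) = (∏ j ∈ Finset.univ.erase i, (q j : ℤ)) * l i a := by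
      change (∑ k, ((∏ j ∈ Finset.univ.erase k, (q j : ℤ)) •
        ((l k).comp (Pi.evalAddMonoidHom (fun i => U i) k)))) (Pi.single i a) = _
      rw [AddMonoidHom.finsetSum_apply, Finset.sum_eq_single i]
      · change (∏ j ∈ Finset.univ.erase i, (q j : ℤ)) • (l i ((Pi.single i a : ∀ i, U i) i)) = _
        rw [Pi.single_eq_same, smul_eq_mul]
      · intro k _ hk
        change (∏ j ∈ Finset.univ.erase k, (q j : ℤ)) • (l k ((Pi.single i a : ∀ i, U i) k)) = _
        rw [Pi.single_eq_of_ne hk, map_zero, smul_zero]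
      · intro h1
        exact absurd (Finset.mem_univ i) h1
    rw [h1, ← mul_assoc, Finset.mul_prod_erase Finset.univ (fun j => (q j : ℤ)) (Finset.mem_univ i)]
  obtain ⟨s, hs, hsd⟩ : ∃ s : ℤ, s * s = 1 ∧ (d.natAbs : ℤ) = s * d := by
    rcases le_total 0 d with h1 | h1
    · exact ⟨1, by norm_num, by rw [Int.natAbs_of_nonneg h1, one_mul]⟩
    · exact ⟨-1, by norm_num, by rw [Int.ofNat_natAbs_of_nonpos h1]; ring⟩
  refine ⟨d.natAbs * ∏ j, q j, (s • g).comp Ψ.toAddMonoidHom, ?_, ?_⟩
  · exact Nat.mul_pos (Int.natAbs_pos.mpr hd) (Finset.prod_pos fun j _ => hq j)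
  · intro i a
    have h1 : Ψ (a : K) = d • Pi.single i a := by rw [← hΦ i a, hΨ]
    change (q i : ℤ) * (s • g (Ψ (a : K))) = _
    rw [h1, map_zsmul, smul_eq_mul, smul_eq_mul]
    rw [Nat.cast_mul, Nat.cast_prod, hsd]
    linear_combination (s * d) * hg i a

/-- The condition of `ZFree`. -/
def ZP (Q : ℕ) (f : K →+ ℤ) (n : ℤ) (G : AO ℤ K) : Prop :=
  ∀ (a : K) (k : ℤ), (G.coeff a).coeff k ≠ 0 → (Q : ℤ) * k = f a + Q * n

theorem zp_mul {Q : ℕ} {f : K →+ ℤ} {n m : ℤ} {G H : AO ℤ K} (hG : ZP Q f n G)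
    (hH : ZP Q f m H) : ZP Q f (n + m) (G * H) := by
  classical
  intro a k hk
  rw [AddMonoidAlgebra.coeff_mul] at hk
  unfold Finsupp.sum at hk
  rw [AddMonoidAlgebra.coeff_sum, Finsupp.finsetSum_apply] at hk
  obtain ⟨b, -, hb⟩ := Finset.exists_ne_zero_of_sum_ne_zero hk
  rw [AddMonoidAlgebra.coeff_sum, Finsupp.finsetSum_apply] at hb
  obtain ⟨c, -, hc⟩ := Finset.exists_ne_zero_of_sum_ne_zero hb
  simp only [] at hc
  split_ifs at hc with h1
  · rw [AddMonoidAlgebra.coeff_mul] at hc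
    unfold Finsupp.sum at hc
    obtain ⟨k1, -, hk1⟩ := Finset.exists_ne_zero_of_sum_ne_zero hc
    obtain ⟨k2, -, hk2⟩ := Finset.exists_ne_zero_of_sum_ne_zero hk1
    simp only [] at hk2
    split_ifs at hk2 with h2
    · have h3 := hG b k1 (left_ne_zero_of_mul hk2)
      have h4 := hH c k2 (right_ne_zero_of_mul hk2)
      rw [← h1, ← h2, map_add]
      linarith
    · exact absurd rfl hk2
  · exact absurd rfl hc

theorem zp_one (Q : ℕ) (f : K →+ ℤ) : ZP Q f 0 (1 : AO ℤ K) := by
  classical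
  intro a k hk
  have h1 : (1 : AO ℤ K).coeff a = if a = 0 then 1 else 0 := by
    by_cases h0 : a = 0
    · rw [if_pos h0, h0]; exact coeff_one_zero
    · rw [if_neg h0]
      change (AddMonoidAlgebra.single (0 : K) (1 : RO ℤ)).coeff a = 0
      rw [coeff_single, Finsupp.single_eq_of_ne h0]
  rw [h1] at hk
  by_cases h0 : a = 0
  · rw [if_pos h0] at hk
    have h2 : k = 0 := by
      by_contra hk0
      apply hk
      change (AddMonoidAlgebra.single (0 : ℤ) (1 : ℤ)).coeff k = 0
      rw [coeff_single, Finsupp.single_eq_of_ne hk0]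
    rw [h0, h2, map_zero]
    ring
  · rw [if_neg h0] at hk
    exact absurd rfl hk

/-- THE PRODUCT of z-free elements in independent sublattices is z-free. -/
theorem zfree_prod {n : ℕ} (G : Fin n → AO ℤ K) (U : Fin n → Submodule ℤ K)
    (hG : ∀ i, ∀ a ∈ supp (G i), a ∈ U i) (hz : ∀ i, ZFree (res (U i) (G i)))
    (hsum : ∑ i, Module.finrank ℤ (U i) = Module.finrank ℤ K)
    (hfull : Module.finrank ℤ K ≤ Module.finrank ℤ (⨆ i, U i : Submodule ℤ K)) :
    ZFree (∏ i, G i) := by
  classical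
  choose q l n' hq hz' using hz
  obtain ⟨Q, f, hQ, hf⟩ := glue U l q hq hsum hfull
  have h1 : ∀ i, ZP Q f (n' i) (G i) := by
    intro i a k hk
    have ha : a ∈ U i := by
      apply hG i
      intro h0
      rw [h0] at hk
      exact hk rfl
    have h2 := hz' i ⟨a, ha⟩ k hk
    have h3 := hf i ⟨a, ha⟩
    have h4 : (q i : ℤ) * ((Q : ℤ) * k) = (q i : ℤ) * (f a + Q * n' i) := by
      change (q i : ℤ) * f a = _ at h3
      linear_combination (Q : ℤ) * h2 - h3
    exact mul_left_cancel₀ (by exact_mod_cast (hq i).ne') h4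
  have h2 : ∀ s : Finset (Fin n), ZP Q f (∑ i ∈ s, n' i) (∏ i ∈ s, G i) := by
    intro s
    induction s using Finset.induction_on with
    | empty => rw [Finset.prod_empty, Finset.sum_empty]; exact zp_one Q f
    | insert i s hi ih =>
      rw [Finset.prod_insert hi, Finset.sum_insert hi]
      exact zp_mul (h1 i) ih
  exact ⟨Q, f, ∑ i, n' i, hQ, h2 Finset.univ⟩

theorem zfree_res (hExt : ExtS) {G : AO ℤ K} {U : Submodule ℤ K} (hU : Sat U)
    (hG : ∀ a ∈ supp G, a ∈ U) (hz : ZFree (res U G)) : ZFree G := by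
  obtain ⟨q, l, n, hq, h⟩ := hz
  obtain ⟨l', hl'⟩ := (hExt K U hU).2 l
  refine ⟨q, l', n, hq, fun a k hk => ?_⟩
  have ha : a ∈ U := by
    apply hG
    intro h0
    rw [h0] at hk
    exact hk rfl
  have h1 := h ⟨a, ha⟩ k hk
  rw [← hl'] at h1
  exact h1

/-- Products of elements supported in a sublattice. -/
theorem supp_prod {n : ℕ} (G : Fin n → AO ℤ K) (U : Submodule ℤ K)
    (hG : ∀ i, ∀ a ∈ supp (G i), a ∈ U) (s : Finset (Fin n)) :
    ∀ a ∈ supp (∏ i ∈ s, G i), a ∈ U := by
  classical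
  induction s using Finset.induction_on with
  | empty =>
    intro a ha
    rw [Finset.prod_empty] at ha
    by_cases h0 : a = 0
    · rw [h0]; exact U.zero_mem
    · exfalso
      apply ha
      change (AddMonoidAlgebra.single (0 : K) (1 : RO ℤ)).coeff a = 0
      rw [coeff_single, Finsupp.single_eq_of_ne h0]
  | insert i s hi ih =>
    intro a ha
    rw [Finset.prod_insert hi] at ha
    change ((G i) * ∏ i ∈ s, G i).coeff a ≠ 0 at ha
    rw [AddMonoidAlgebra.coeff_mul] at ha
    unfold Finsupp.sum at ha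
    obtain ⟨b, -, hb⟩ := Finset.exists_ne_zero_of_sum_ne_zero ha
    obtain ⟨c, -, hc⟩ := Finset.exists_ne_zero_of_sum_ne_zero hb
    simp only [] at hc
    split_ifs at hc with h1
    · rw [← h1]
      exact U.add_mem (hG i b (left_ne_zero_of_mul hc)) (ih c (right_ne_zero_of_mul hc))
    · exact absurd rfl hc

end Lat

end Pool.Agent.B5.O1.H12
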