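import Pool.Agent.Lib.MP_b5021c_nt.KE.H96.Two
import Pool.Agent.Lib.MP_b5021c_nt.B.H09.E2Psz
import Pool.Agent.Lib.MP_b5021c_nt.E2.H27.Tre
import Pool.Agent.Lib.MP_b5021c_nt.H45.Mmu

/-!
# Board b5, ALL `θ`, K ODD, row O1_CNT (helper12), part 3: the masses at the A-load, evaluated at `a`
-/

namespace Pool.Agent.B5.O1.H12

open scoped LaurentPolynomial Topology
open Polynomial Pool.Agent.B5 Pool.Agent.B5.KE
open Pool.Agent.B5.Nr.Sch (Loc)

/-- `∑ P_a[t_i]/m_i ≤ 2 (1/a - a)/n - 1` for masses `t_i/m_i` at the A-load. -/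
theorem mas_le (hPsn : PsnS) {q f : ℤ[X]} {a : ℝ} (h : Loc q f a) (hu : f.coeff 0 = 1)
    (hne : ∃ z : ℂ, ‖z‖ = 1 ∧ ‖aeval z f‖ ≠ ‖aeval z q‖) {ι : Type} (s : Finset ι)
    (t : ι → RO ℤ) (m : ι → ℕ)
    (hle : ∀ z : Circle, (∑ i ∈ s, (evR z (t i)).re / (m i : ℝ)) *
        ‖evR z (toLaurent (q - f) : RO ℤ)‖ ^ 2 ≤
      2 * (evR z (toLaurent q : RO ℤ) *
        (starRingEnd ℂ) (evR z (toLaurent (q - f) : RO ℤ))).re -
        ‖evR z (toLaurent (q - f) : RO ℤ)‖ ^ 2) :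
    ∑ i ∈ s, pmn (a : ℂ) (t i) / (m i : ℝ) ≤
      2 * (a⁻¹ - a) / ((f.coeff 1 - q.coeff 1 : ℤ) : ℝ) - 1 := by
  have ha := h.a0
  have ha1 := h.a1
  obtain ⟨E, hE, hE0, hE1, hEz⟩ := typa h hu hne
  set qc : ℂ[X] := q.map (Coef.emb : ℤ →+* ℂ) with hqc
  set ec : ℂ[X] := (-E).map (Coef.emb : ℤ →+* ℂ) with hec
  have hqf : q - f = X * (-E) := by rw [mul_neg, ← hE]; ring
  have hec0 : ∀ z : ℂ, ‖z‖ < 1 → ec.eval z ≠ 0 := by
    intro z hz
    rw [hec, ev_map, map_neg]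
    exact neg_ne_zero.mpr (hEz z hz)
  have hV : (toLaurent (q - f) : RO ℤ) = LaurentPolynomial.T (0 + 1) * toLaurent (-E) := by
    rw [hqf, map_mul, toLaurent_X, zero_add]
  have hQ : (toLaurent q : RO ℤ) = LaurentPolynomial.T 0 * toLaurent q := by
    rw [LaurentPolynomial.T_zero, one_mul]
  have hevp : ∀ (z : Circle) (p : ℤ[X]), evR z (toLaurent p : RO ℤ) = aeval (z : ℂ) p := by
    intro z p
    have h1 := H70.evR_T_mul z 0 p
    rw [LaurentPolynomial.T_zero, one_mul, zpow_zero, one_mul, ev_map] at h1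
    exact h1
  have hac0 : (a : ℂ) ≠ 0 := by exact_mod_cast ha.ne'
  have hac1 : ‖(a : ℂ)‖ < 1 := by
    rw [Complex.norm_real, Real.norm_eq_abs, abs_of_pos ha]; exact ha1
  have hph := H09.phyp_of (toLaurent q : RO ℤ) (toLaurent (q - f)) 0 q (-E) hQ hV hec0 (a : ℂ)
    hac0 hac1 (roots_loc h) (by
      intro z
      rw [hevp]
      exact q_ne h _ (Circle.norm_coe z)) (by
      intro z
      rw [← map_sub, hevp, hevp]
      have h1 : (q - f - q : ℤ[X]) = -f := by ring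
      rw [h1, map_neg, norm_neg]
      exact h.le _ (Circle.norm_coe z))
  obtain ⟨hint, hav⟩ := hPsn _ _ _ _ hph
  obtain ⟨pc, hpc⟩ : ∃ pc : ℂ[X], pc = 2 * q.map (Coef.emb : ℤ →+* ℂ) -
    X * (-E).map (Coef.emb : ℤ →+* ℂ) := ⟨_, rfl⟩
  rw [← hpc, ← hec] at hint hav
  have hpev : ∀ z : ℂ, pc.eval z = 2 * qc.eval z - z * ec.eval z := by
    intro z
    rw [hpc, eval_sub, eval_mul, eval_mul, eval_X]
    simp [hqc, hec]
  -- the right side
  have hE0R : (0 : ℝ) < (E.coeff 0 : ℝ) := by exact_mod_cast hE1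
  have hright : -(pc.eval 0 / ec.eval 0 * (1 / (a : ℂ) - (starRingEnd ℂ) (a : ℂ))).re =
      2 * (a⁻¹ - a) / (E.coeff 0 : ℝ) := by
    have h1 : pc.eval 0 = 2 := by
      rw [hpev, zero_mul, sub_zero, hqc, ev_map]
      have h2 : aeval (0 : ℂ) q = ((q.coeff 0 : ℤ) : ℂ) := by
        rw [← coeff_zero_eq_aeval_zero']
        simp
      rw [h2, h.q0]
      norm_num
    have h2 : ec.eval 0 = ((-(E.coeff 0 : ℝ) : ℝ) : ℂ) := by
      rw [hec, ev_map, map_neg]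
      have h2 : aeval (0 : ℂ) E = ((E.coeff 0 : ℤ) : ℂ) := by
        rw [← coeff_zero_eq_aeval_zero']
        simp
      rw [h2]
      push_cast
      rfl
    rw [h1, h2, Complex.conj_ofReal]
    have h3 : (2 : ℂ) / ((-(E.coeff 0 : ℝ) : ℝ) : ℂ) * (1 / (a : ℂ) - (a : ℂ)) =
        ((2 / (-(E.coeff 0 : ℝ)) * (1 / a - a) : ℝ) : ℂ) := by push_cast; rfl
    rw [h3, Complex.ofReal_re]
    field_simp
  rw [hright, hE0] at hav
  -- the left side
  have hker : ∀ z : ℂ, ‖z‖ = 1 → z - (a : ℂ) ≠ 0 := by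
    intro z hz h0
    have h1 : z = (a : ℂ) := sub_eq_zero.mp h0
    rw [h1] at hz
    linarith
  have hsum : Real.circleAverage (fun z => ∑ i ∈ s, ((1 - ‖(a : ℂ)‖ ^ 2) / ‖z - (a : ℂ)‖ ^ 2 *
      (evL z (t i)).re) / (m i : ℝ)) 0 1 = ∑ i ∈ s, pmn (a : ℂ) (t i) / (m i : ℝ) := by
    rw [Real.circleAverage_fun_sum]
    · apply Finset.sum_congr rfl
      intro i _
      have h1 : (fun z : ℂ => ((1 - ‖(a : ℂ)‖ ^ 2) / ‖z - (a : ℂ)‖ ^ 2 *
          (evL z (t i)).re) / (m i : ℝ)) = fun z => ((m i : ℝ)⁻¹) •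
          ((1 - ‖(a : ℂ)‖ ^ 2) / ‖z - (a : ℂ)‖ ^ 2 * (evL z (t i)).re) := by
        funext z
        rw [smul_eq_mul, div_eq_inv_mul]
      rw [h1, Real.circleAverage_fun_smul, smul_eq_mul, div_eq_inv_mul]
      rfl
    · intro i _
      have h1 := H27.ci_pmn (a : ℂ) hac1 (t i)
      exact IntervalIntegrable.div_const h1 _
  rw [← hsum]
  have hec1 : ec ≠ 0 := by
    intro h1
    apply hec0 0 (by simp)
    rw [h1, eval_zero]
  have hEfin : (ec.rootSet ℂ).Finite := Polynomial.rootSet_finite ec ℂ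
  have hmem : ∀ z : ℂ, z ∈ ec.rootSet ℂ ↔ ec.eval z = 0 := by
    intro z
    rw [Polynomial.mem_rootSet, Polynomial.aeval_def, Polynomial.eval₂_eq_eval_map]
    simp [hec1]
  classical
  obtain ⟨f1, hf1⟩ : ∃ f1 : ℂ → ℝ, f1 = fun z => ∑ i ∈ s, ((1 - ‖(a : ℂ)‖ ^ 2) /
    ‖z - (a : ℂ)‖ ^ 2 * (evL z (t i)).re) / (m i : ℝ) := ⟨_, rfl⟩
  obtain ⟨f2, hf2⟩ : ∃ f2 : ℂ → ℝ, f2 = fun z => (1 - ‖(a : ℂ)‖ ^ 2) / ‖z - (a : ℂ)‖ ^ 2 *
    (pc.eval z / (z * ec.eval z)).re := ⟨_, rfl⟩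
  rw [← hf1]
  rw [← hf2] at hav
  have hI1 : CircleIntegrable f1 0 1 := by
    rw [hf1]
    have h1 : (fun z => ∑ i ∈ s, ((1 - ‖(a : ℂ)‖ ^ 2) /
      ‖z - (a : ℂ)‖ ^ 2 * (evL z (t i)).re) / (m i : ℝ)) = ∑ i ∈ s, fun z => ((1 - ‖(a : ℂ)‖ ^ 2) /
      ‖z - (a : ℂ)‖ ^ 2 * (evL z (t i)).re) / (m i : ℝ) := by
      funext z
      rw [Finset.sum_apply]
    rw [h1]
    apply CircleIntegrable.sum
    intro i _
    exact IntervalIntegrable.div_const (H27.ci_pmn (a : ℂ) hac1 (t i)) _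
  have hI2 : CircleIntegrable f2 0 1 := by
    rw [hf2]
    have hc : Continuous fun θ : ℝ => (1 - ‖(a : ℂ)‖ ^ 2) / ‖circleMap 0 1 θ - (a : ℂ)‖ ^ 2 := by
      apply Continuous.div continuous_const
      · exact ((continuous_circleMap 0 1).sub continuous_const).norm.pow 2
      · intro θ h0
        have h1 : ‖circleMap 0 1 θ - (a : ℂ)‖ = 0 := by simpa using h0
        exact hker _ (by simp) (norm_eq_zero.mp h1)
    have h1 := IntervalIntegrable.continuousOn_mul hint hc.continuousOn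
    exact h1
  obtain ⟨f3, hf3⟩ : ∃ f3 : ℂ → ℝ, f3 = fun z => if z ∈ ec.rootSet ℂ then f1 z else f2 z :=
    ⟨_, rfl⟩
  have hcod : f2 =ᶠ[Filter.codiscreteWithin (Metric.sphere (0 : ℂ) |(1 : ℝ)|)] f3 := by
    have h1 : ((ec.rootSet ℂ)ᶜ : Set ℂ) ∈
        Filter.codiscreteWithin (Metric.sphere (0 : ℂ) |(1 : ℝ)|) :=
      compl_finite_mem_codiscreteWithin hEfin
    filter_upwards [h1] with z hz1
    rw [hf3]
    exact (if_neg hz1).symm
  have hI3 : CircleIntegrable f3 0 1 := hI2.congr_codiscreteWithin hcod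
  have hA3 : Real.circleAverage f2 0 1 = Real.circleAverage f3 0 1 :=
    Real.circleAverage_congr_codiscreteWithin hcod one_ne_zero
  have hmono : Real.circleAverage f1 0 1 ≤ Real.circleAverage f3 0 1 := by
    apply Real.circleAverage_mono hI1 hI3
    intro z hz
    have hz1 : ‖z‖ = 1 := by simpa using hz
    rw [hf3]
    by_cases hzE : z ∈ ec.rootSet ℂ
    · simp only [if_pos hzE]; exact le_refl _
    · simp only [if_neg hzE]
      have hez : ec.eval z ≠ 0 := fun h0 => hzE ((hmem z).mpr h0)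
      have hz0 : z ≠ 0 := by
        intro h0
        rw [h0, norm_zero] at hz1
        exact zero_ne_one hz1
      obtain ⟨zc, hzc⟩ : ∃ zc : Circle, (zc : ℂ) = z :=
        ⟨⟨z, mem_sphere_zero_iff_norm.mpr hz1⟩, rfl⟩
      have h1 := hle zc
      have h2 : evR zc (toLaurent (q - f) : RO ℤ) = z * ec.eval z := by
        rw [hevp, hqf, hzc, map_mul, aeval_X, hec, ev_map]
      have h3 : evR zc (toLaurent q : RO ℤ) = qc.eval z := by
        rw [hevp, hzc, hqc, ev_map]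
      rw [h2, h3] at h1
      have hV0 : z * ec.eval z ≠ 0 := mul_ne_zero hz0 hez
      have hVp : 0 < ‖z * ec.eval z‖ ^ 2 := by positivity
      have h4 : (pc.eval z / (z * ec.eval z)).re * ‖z * ec.eval z‖ ^ 2 =
          2 * (qc.eval z * (starRingEnd ℂ) (z * ec.eval z)).re - ‖z * ec.eval z‖ ^ 2 := by
        have h5 : pc.eval z / (z * ec.eval z) = (2 : ℝ) * (qc.eval z / (z * ec.eval z)) - 1 := by
          rw [hpev]
          field_simp
          push_cast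
          ring
        rw [h5, Complex.sub_re, Complex.re_ofReal_mul, Complex.one_re, sub_mul, one_mul, mul_assoc]
        congr 2
        have h6 : (qc.eval z / (z * ec.eval z)) =
            ((‖z * ec.eval z‖ ^ 2)⁻¹ : ℝ) * (qc.eval z * (starRingEnd ℂ) (z * ec.eval z)) := by
          rw [div_eq_mul_inv, Complex.inv_def, Complex.normSq_eq_norm_sq]
          ring
        rw [h6, Complex.re_ofReal_mul]
        field_simp
      rw [← h4] at h1
      have h7 := le_of_mul_le_mul_right h1 hVp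
      rw [hf1, hf2]
      simp only []
      have h8 : ∑ i ∈ s, ((1 - ‖(a : ℂ)‖ ^ 2) / ‖z - (a : ℂ)‖ ^ 2 * (evL z (t i)).re) / (m i : ℝ) =
          (1 - ‖(a : ℂ)‖ ^ 2) / ‖z - (a : ℂ)‖ ^ 2 * ∑ i ∈ s, (evR zc (t i)).re / (m i : ℝ) := by
        rw [Finset.mul_sum]
        apply Finset.sum_congr rfl
        intro i _
        have h9 : evL z (t i) = evR zc (t i) := by
          rw [← hzc]
          exact H45.evL_eq (O := ℤ) (Circle.toUnits zc) (t i)
        rw [h9, mul_div_assoc]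
      rw [h8]
      apply mul_le_mul_of_nonneg_left h7
      have h10 : 0 ≤ 1 - ‖(a : ℂ)‖ ^ 2 := by
        have := norm_nonneg (a : ℂ)
        nlinarith
      positivity
  rw [hA3] at hav
  linarith

end Pool.Agent.B5.O1.H12
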