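import Pool.Agent.Lib.MP_b5021c_nt.O1.H12.Qsk
import Pool.Agent.Lib.MP_b5021c_nt.O1.H12.Mas
import Pool.Agent.Lib.MP_b5021c_nt.O1.H12.Glu
import Pool.Agent.Lib.MP_b5021c_nt.IfaceO1
import Pool.Agent.Lib.MP_b5021c_nt.KO.H67.O2
import Pool.Agent.Lib.MP_b5021c_nt.E1.AllR

/-!
# Board b5, ALL `θ`, K ODD, row O1_CNT (helper12): the count at the A-load
-/

namespace Pool.Agent.B5.O1.H12

open scoped LaurentPolynomial
open Polynomial
open Pool.Agent.B5.KE
open Pool.Agent.B5.KO67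
open Pool.Agent.B5.Nr.Sch (Loc)

/-- The integers of the count. -/
theorem cnt_num {j L c0 N' SB : ℕ} (hj : 2 ≤ j) (h2 : 2 ≤ c0 * N') (hνj : c0 * N' ≤ j)
    (hL : (L + c0) * N' ≤ 2 * j + 1) (hrk : 2 * j ≤ L + 2 * SB)
    (hSB : (SB = 0 ∧ N' = 1) ∨ (SB ≤ N' ∧ 2 ≤ N')) :
    c0 = 1 ∧ (N' = j ∨ (L = 2 ∧ SB = N' ∧ ((j = 3 ∧ N' = 2) ∨ (j = 4 ∧ N' = 3)))) ∧
      (L = 0 → SB = N' ∧ N' = j) := by
  rcases hSB with ⟨h3, h4⟩ | ⟨h3, h4⟩
  · subst h3 h4
    omega
  · have hc1 : 1 ≤ c0 := by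
      rcases Nat.eq_zero_or_pos c0 with h | h
      · subst h; omega
      · exact h
    have hc : c0 = 1 := by
      by_contra hcon
      have hc2 : 2 ≤ c0 := by omega
      have h5 : 2 * N' ≤ j := (Nat.mul_le_mul_right N' hc2).trans hνj
      have h6 : j + 2 ≤ L + c0 := by omega
      have h7 : (j + 2) * 2 ≤ (L + c0) * N' := Nat.mul_le_mul h6 h4
      omega
    subst hc
    refine ⟨rfl, ?_, ?_⟩
    · rw [one_mul] at h2 hνj
      by_cases h5 : N' = j
      · exact Or.inl h5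
      · right
        obtain ⟨m, hm⟩ : ∃ m, j = N' + m := ⟨j - N', by omega⟩
        have hm1 : 1 ≤ m := by omega
        have hLm : 2 * m ≤ L := by omega
        have h6 : (2 * m + 1) * N' ≤ (L + 1) * N' := Nat.mul_le_mul_right N' (by omega)
        have h7 : (2 * m + 1) * N' ≤ 2 * (N' + m) + 1 := by rw [← hm]; exact h6.trans hL
        have hm2 : m = 1 := by
          by_contra hcon
          have hm3 : 2 ≤ m := by omega
          nlinarith
        subst hm2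
        have hN3 : N' ≤ 3 := by omega
        have h8 : N' = 2 ∨ N' = 3 := by omega
        rcases h8 with h8 | h8 <;> subst h8 <;> subst hm <;> omega
    · intro hL0
      subst hL0
      omega

/-- `Σ ≤ Π` for integers at least two. -/
theorem sum_le_prod {ι : Type} (s : Finset ι) (x : ι → ℕ) (hx : ∀ i ∈ s, 2 ≤ x i)
    (hs : s.Nonempty) : ∑ i ∈ s, x i ≤ ∏ i ∈ s, x i ∧ 2 ≤ ∏ i ∈ s, x i := by
  classical
  induction s using Finset.induction_on with
  | empty => exact absurd hs (by simp)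
  | insert i s hi ih =>
    rw [Finset.sum_insert hi, Finset.prod_insert hi]
    have h1 := hx i (Finset.mem_insert_self _ _)
    rcases s.eq_empty_or_nonempty with h2 | h2
    · subst h2
      simp only [Finset.sum_empty, Finset.prod_empty]
      omega
    · obtain ⟨h3, h4⟩ := ih (fun k hk => hx k (Finset.mem_insert_of_mem hk)) h2
      constructor
      · nlinarith
      · nlinarith

/-- The level of class `V` over the integers. -/
theorem classV_nat {N : ℝ} {Q : RO ℤ} (hV : ClassV N Q) : ∃ m : ℕ, 1 ≤ m ∧ N = m := by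
  obtain ⟨h1, n, g, hg, hg0, hz⟩ := hV
  have h2 : N = ((g.coeff 0).natAbs : ℕ) := by
    rw [← hg0]
    change ‖((g.coeff 0 : ℤ) : ℂ)‖ = _
    rw [Complex.norm_intCast, Nat.cast_natAbs, Int.cast_abs]
  refine ⟨(g.coeff 0).natAbs, ?_, h2⟩
  rw [h2] at h1
  exact_mod_cast h1

section

variable {P L : Type} [Fintype P] [DecidableEq P] [AddCommGroup L] [Module.Free ℤ L]
  [Module.Finite ℤ L] {phi : L →+ (P → ℤ)} {D : AO ℤ L}

/-- The value at the A-load is of class `V(n)`. -/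
theorem classV_A {S : L} {q f : ℤ[X]} {e : (RO ℤ)ˣ} {a : ℝ} (hR : RN D S q f e a)
    (hu : f.coeff 0 = 1) : ClassV ((f.coeff 1 - q.coeff 1 : ℤ) : ℝ)
      (D.coeff 0 + ((-e : (RO ℤ)ˣ) : RO ℤ) * D.coeff S) ∧ 1 ≤ f.coeff 1 - q.coeff 1 := by
  obtain ⟨E, hE, hE0, hE1, hEz⟩ := typa hR.loc hu hR.ne
  rw [← hE0]
  refine ⟨⟨by exact_mod_cast hE1, 1, -E, ?_, ?_, ?_⟩, hE1⟩
  · rw [V0_A hR]
    have h3 : q - f = X * -E := by rw [mul_neg, ← hE]; ring
    rw [h3, map_mul, toLaurent_X]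
  · rw [coeff_neg, map_neg, norm_neg]
    change ‖((E.coeff 0 : ℤ) : ℂ)‖ = _
    rw [Complex.norm_intCast, abs_of_nonneg]
    exact_mod_cast (by omega : (0 : ℤ) ≤ E.coeff 0)
  · intro z hz
    rw [ev_map, map_neg]
    exact neg_ne_zero.mpr (hEz z hz)

/-- THE NUMBER OF SMALL FACTORS at the A-load. -/
theorem l_bound (h1 : SmallS) (h2 : QstS) (hQp : Qp3S) (hKe : KerEvS) (hMm : MmulS) (hMV : MVS)
    (hE1 : E1S) (hDb : Db3S) (hNn : Nn3S) (hHp : Hp3S)
    (hGen : GenS) (hE : SlEvalS) (hEv : EvRS) (hSh : SharpS) (hDe : DensS) (hZ : ZfinS)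
    (hU : UnitAS) (hFace : FaceS) (hSt : StSpecS) (hMu : MultiS) (hE2 : E2S) (hP : PrimS)
    (hB3 : B3S) (hFull : FullS) (hNd : Nd3S) (hPsn : PsnS) (hSnr : Nr.SnrS)
    {S : L} {i0 : P} {h : co phi i0 S = 1} {c : RO ℤ} {n : ℕ}
    {G : Fin n → AO ℤ (Ker (co phi i0))} {q f : ℤ[X]} {e : (RO ℤ)ˣ} {a : ℝ}
    (hR : RN D S q f e a) (hu : f.coeff 0 = 1) (ha2 : a ≤ 1 / 2)
    (fd : FD phi D S i0 (-e) h c n G) :
    ((snp phi S i0 G).card : ℝ) ≤
      M c * (2 * (a⁻¹ - a) / ((f.coeff 1 - q.coeff 1 : ℤ) : ℝ) - 1) := by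
  classical
  have ha0 := hR.loc.a0
  obtain ⟨hVV, -⟩ := classV_A hR hu
  have hv0 := V0_A hR
  have hv : D.coeff 0 + ((-e : (RO ℤ)ˣ) : RO ℤ) * D.coeff S =
      LaurentPolynomial.T 0 * toLaurent (q - f) := by
    rw [hv0, LaurentPolynomial.T_zero, one_mul]
  have hM1 : 1 ≤ M c := (hMm ℤ).2.1 c
  have hqf0 : q - f ≠ 0 := by
    intro h0
    have h3 := (hMV ℤ).1 _ _ hVV
    apply h3.1
    rw [hv0, h0, map_zero]
  -- no double zero
  have hd : ∀ z0 : ℂ, ‖z0‖ = 1 → ¬ (X - C z0) ^ 2 ∣ (q - f).map (Coef.emb : ℤ →+* ℂ) := by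
    intro z0 hz0
    refine hNd (q.map (Coef.emb : ℤ →+* ℂ)) ((q - f).map (Coef.emb : ℤ →+* ℂ)) z0 ?_ ?_ ?_ ?_ ?_ hz0
    · unfold Pool.Agent.MP_b5021c_nt.nz
      rw [roots_loc hR.loc]
      rfl
    · intro z hz
      rw [ev_map]
      exact q_ne hR.loc z hz
    · intro z hz
      rw [ev_map, ev_map, map_sub]
      have h3 := hR.loc.le z hz
      have h4 : (aeval z f * (starRingEnd ℂ) (aeval z q)).re ≤ ‖aeval z q‖ ^ 2 := by
        have h5 := Complex.re_le_norm (aeval z f * (starRingEnd ℂ) (aeval z q))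
        rw [norm_mul, RCLike.norm_conj] at h5
        nlinarith [norm_nonneg (aeval z q)]
      rw [sub_mul, Complex.sub_re, Complex.mul_conj, Complex.ofReal_re, Complex.normSq_eq_norm_sq]
      linarith
    · exact (Polynomial.map_ne_zero_iff emb_inj).mpr hqf0
    · refine ⟨0, by simp, ?_⟩
      rw [ev_map]
      have h3 : aeval (0 : ℂ) (q - f) = (((q - f).coeff 0 : ℤ) : ℂ) := by
        rw [← coeff_zero_eq_aeval_zero']
        simp
      rw [h3, coeff_sub, hR.loc.q0, hu]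
      norm_num
  obtain ⟨m, t, hmt, hle⟩ := qsk h1 h2 hQp hKe hMm hMV hE1 hDb hNn hHp hGen hE hEv hSh hDe hZ hU
    hFace hSt hMu hE2 hP hB3 hFull phi D S i0 (-e) h c n G fd _ hVV 0 (q - f) hv hd
  rw [hv0, hR.D0] at hle
  have h3 := mas_le hPsn hR.loc hu hR.ne (snp phi S i0 G) t m hle
  have h4 : ((snp phi S i0 G).card : ℝ) / M c ≤
      ∑ i ∈ snp phi S i0 G, pmn (a : ℂ) (t i) / (m i : ℝ) := by
    rw [div_eq_mul_inv, ← nsmul_eq_mul]
    apply Finset.card_nsmul_le_sum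
    intro l hl
    obtain ⟨h5, h6, L', _, _, _, T, hT0, hTp, hTt⟩ := hmt l hl
    have h7 := (hSnr L' T a (by rw [abs_of_pos ha0]; exact ha2) hT0 hTp).1
    rw [hTt] at h7
    have h8 : (0 : ℝ) ≤ (rk (supp T) : ℝ) := Nat.cast_nonneg _
    have h9 : (0 : ℝ) < m l := by exact_mod_cast h5
    rw [inv_eq_one_div]
    exact div_le_div₀ (by linarith) (by linarith) h9 h6
  have h5 : (0 : ℝ) < M c := by linarith
  rw [div_le_iff₀ h5] at h4
  calc ((snp phi S i0 G).card : ℝ) ≤ (∑ i ∈ snp phi S i0 G, pmn (a : ℂ) (t i) / (m i : ℝ)) * M c := h4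
    _ ≤ (2 * (a⁻¹ - a) / ((f.coeff 1 - q.coeff 1 : ℤ) : ℝ) - 1) * M c :=
        mul_le_mul_of_nonneg_right h3 h5.le
    _ = _ := mul_comm _ _

/-- The rank of a big factor, and z-freeness of an extremal one. -/
theorem big_rank (hClp : ClpS) (hEvz : EvzS) (hEv1 : BdV ℤ 1 1) (hFcl : FclS) {S : L} {i0 : P}
    {eta : (RO ℤ)ˣ} {h : co phi i0 S = 1} {c : RO ℤ} {n : ℕ}
    {G : Fin n → AO ℤ (Ker (co phi i0))} (fp : FP phi D) (fd : FD phi D S i0 eta h c n G)
    (i : Fin n) {N : ℕ} (hN : 2 ≤ N) (hV : ClassV (N : ℝ) ((G i).coeff 0)) :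
    rk (supp (G i)) ≤ 2 * N ∧ ∃ K : Submodule ℤ (Ker (co phi i0)), Sat K ∧
      (∀ a ∈ supp (G i), a ∈ K) ∧ Module.finrank ℤ K = rk (supp (G i)) ∧
      (rk (supp (G i)) = 2 * N → ZFree (res K (G i))) := by
  obtain ⟨-, hcl⟩ := hClp ℤ P L phi D S i0 eta h c n G fp fd
  obtain ⟨-, K, hsat, hK, hKr, hDD⟩ := hcl i
  have hV' : ClassV (N : ℝ) ((res K (G i)).coeff 0) := by
    have h1 : (res K (G i)).coeff 0 = (G i).coeff 0 := rfl
    rw [h1]; exact hV
  have h1 := hEvz N hN P K _ _ hDD hV'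
  rw [hKr] at h1
  refine ⟨by exact_mod_cast h1, K, hsat, hK, hKr, fun hr => ?_⟩
  rcases hFcl ℤ P K _ _ (N : ℝ) hDD hV' (by rw [hKr, hr]; omega) with h2 | ⟨N', b, D', hN', hD', hV2, hr2⟩
  · exact h2
  · exfalso
    exact fcl_no hEvz hEv1 hN hN' hD' hV2 (by rw [hr2, hKr, hr])

end

/-- ROW O1_CNT. -/
theorem o1c (h1 : SmallS) (h2 : QstS) (hQp : Qp3S) (hKe : KerEvS) (hMm : MmulS) (hMV : MVS)
    (hE1 : E1S) (hDb : Db3S) (hNn : Nn3S) (hHp : Hp3S)
    (hGen : GenS) (hE : SlEvalS) (hEv : EvRS) (hSh : SharpS) (hDe : DensS) (hZ : ZfinS)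
    (hU : UnitAS) (hFace : FaceS) (hSt : StSpecS) (hMu : MultiS) (hE2 : E2S) (hP : PrimS)
    (hB3 : B3S) (hFull : FullS) (hNd : Nd3S) (hPsn : PsnS) (hSnr : Nr.SnrS) (hG1 : G1pS)
    (hClp : ClpS) (hEvz : EvzS) (hEv1 : BdV ℤ 1 1) (hFcl : FclS) (hRk : RkS) (hExt : ExtS) :
    O1cS := by
  classical
  intro P L _ _ _ _ _ phi D S i0 h c n G q f e a p j W hR O hn2 hnj fd hdr
  obtain ⟨ha0, ha2, hθ2, hθ⟩ := ko_num W
  have hu := O.f0
  have hj := W.j2
  obtain ⟨hVV, hnn⟩ := classV_A hR hu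
  have hcls := hVV
  rw [fd.v00] at hcls
  obtain ⟨Nc, -, hcV, -, -⟩ := (hE1 ℤ).1 _ _ _ hcls
  obtain ⟨c0, hc0, rfl⟩ := classV_nat hcV
  have hgV : ∀ i, ∃ m : ℕ, 1 ≤ m ∧ ClassV (m : ℝ) ((G i).coeff 0) := by
    intro i
    have h3 : c * ∏ i, (G i).coeff 0 = (G i).coeff 0 * (c * ∏ k ∈ Finset.univ.erase i, (G k).coeff 0) := by
      rw [← Finset.mul_prod_erase Finset.univ (fun i => (G i).coeff 0) (Finset.mem_univ i)]
      ring
    rw [h3] at hcls
    obtain ⟨N1, -, h4, -, -⟩ := (hE1 ℤ).1 _ _ _ hcls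
    obtain ⟨m, hm, rfl⟩ := classV_nat h4
    exact ⟨m, hm, h4⟩
  choose Ni hNi1 hNiV using hgV
  have hMc : M c = c0 := ((hMV ℤ).1 _ _ hcV).2
  have hMi : ∀ i, M ((G i).coeff 0) = Ni i := fun i => ((hMV ℤ).1 _ _ (hNiV i)).2
  have hMp : ∀ s : Finset (Fin n), M (∏ i ∈ s, (G i).coeff 0) = ∏ i ∈ s, (Ni i : ℝ) := by
    intro s
    induction s using Finset.induction_on with
    | empty =>
      rw [Finset.prod_empty, Finset.prod_empty]
      exact (hMm ℤ).2.2 1 isUnit_one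
    | insert i s hi ih =>
      rw [Finset.prod_insert hi, Finset.prod_insert hi,
        (hMm ℤ).1 _ _ (fd.st i).1 (Finset.prod_ne_zero_iff.mpr fun k _ => (fd.st k).1), ih, hMi]
  obtain ⟨nu, hnu⟩ : ∃ nu : ℕ, ((nu : ℕ) : ℤ) = f.coeff 1 - q.coeff 1 :=
    ⟨(f.coeff 1 - q.coeff 1).toNat, Int.toNat_of_nonneg (by omega)⟩
  have hnuR : ((f.coeff 1 - q.coeff 1 : ℤ) : ℝ) = (nu : ℝ) := by rw [← hnu]; rfl
  obtain ⟨N', hN'⟩ : ∃ N' : ℕ, N' = ∏ i, Ni i := ⟨_, rfl⟩
  have hprod : nu = c0 * N' := by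
    have h3 := ((hMV ℤ).1 _ _ hcls).2
    rw [(hMm ℤ).1 _ _ fd.c0 (Finset.prod_ne_zero_iff.mpr fun k _ => (fd.st k).1), hMc, hMp,
      hnuR] at h3
    have h4 : ((c0 * N' : ℕ) : ℝ) = nu := by
      rw [← h3, hN']
      push_cast
      rfl
    exact_mod_cast h4.symm
  -- big factors
  have hbig : ∀ i, i ∈ big G ↔ 2 ≤ Ni i := by
    intro i
    unfold big
    rw [Finset.mem_filter, hMi]
    constructor
    · rintro ⟨-, h3⟩
      have h4 : 1 < Ni i := by exact_mod_cast h3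
      omega
    · intro h3
      refine ⟨Finset.mem_univ i, ?_⟩
      exact_mod_cast (by omega : 1 < Ni i)
  have hN'b : N' = ∏ i ∈ big G, Ni i := by
    rw [hN']
    symm
    apply Finset.prod_subset (Finset.subset_univ _)
    intro i _ hi
    rw [hbig] at hi
    have := hNi1 i
    omega
  obtain ⟨SB, hSB⟩ : ∃ SB : ℕ, SB = ∑ i ∈ big G, Ni i := ⟨_, rfl⟩
  have hSBc : (SB = 0 ∧ N' = 1) ∨ (SB ≤ N' ∧ 2 ≤ N') := by
    rcases (big G).eq_empty_or_nonempty with h3 | h3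
    · left
      rw [hSB, hN'b, h3]
      simp
    · right
      rw [hSB, hN'b]
      exact sum_le_prod _ _ (fun i hi => (hbig i).mp hi) h3
  -- the rank
  have hclp := hClp ℤ P L phi D S i0 (-e) h c n G W.min.fp fd
  have hrk := hG1 ℤ P L phi D S i0 (-e) h c n G fd (fun i b _ hpu _ => absurd hpu (hclp.2 i).1)
  have hrk2 : ∑ i ∈ big G, rk (supp (G i)) ≤ 2 * SB := by
    rw [hSB, Finset.mul_sum]
    apply Finset.sum_le_sum
    intro i hi
    exact (big_rank hClp hEvz hEv1 hFcl W.min.fp fd i ((hbig i).mp hi) (hNiV i)).1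
  have hfr := W.rk
  have hrk3 : 2 * j ≤ (snp phi S i0 G).card + 2 * SB := by omega
  -- the number of small factors
  have hL := l_bound h1 h2 hQp hKe hMm hMV hE1 hDb hNn hHp hGen hE hEv hSh hDe hZ hU
    hFace hSt hMu hE2 hP hB3 hFull hNd hPsn hSnr hR hu ha2.le fd
  have hL2 : ((snp phi S i0 G).card + c0) * N' ≤ 2 * j + 1 := by
    rw [hMc, hnuR] at hL
    have h3 : (0 : ℝ) < nu := by
      have : 0 < nu := by omega
      exact_mod_cast this
    have h4 : ((snp phi S i0 G).card + c0 : ℝ) * nu ≤ c0 * (2 * (a⁻¹ - a)) := by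
      have h5 := mul_le_mul_of_nonneg_right hL h3.le
      have h6 : (c0 : ℝ) * (2 * (a⁻¹ - a) / nu - 1) * nu = c0 * (2 * (a⁻¹ - a)) - c0 * nu := by
        field_simp
      rw [h6] at h5
      linarith
    have h5 : (0 : ℝ) < c0 := by exact_mod_cast hc0
    have h6 : (((snp phi S i0 G).card + c0 : ℝ) * N') ≤ 2 * (a⁻¹ - a) := by
      rw [hprod] at h4
      push_cast at h4
      refine le_of_mul_le_mul_left ?_ h5
      calc (c0 : ℝ) * (((snp phi S i0 G).card + c0 : ℝ) * N')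
          = ((snp phi S i0 G).card + c0 : ℝ) * (c0 * N') := by ring
        _ ≤ _ := h4
    have h7 : (((snp phi S i0 G).card + c0 : ℝ) * N') < 2 * j + 2 := by linarith
    have h8 : ((snp phi S i0 G).card + c0) * N' < 2 * j + 2 := by exact_mod_cast h7
    omega
  obtain ⟨hc1, hcase, hzero⟩ := cnt_num hj (by omega) (by omega) hL2 hrk3 hSBc
  subst hc1
  rw [one_mul] at hprod
  have hcV1 : ClassV 1 c := by
    have h3 := hcV
    rw [Nat.cast_one] at h3
    exact h3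
  refine ⟨hcV1, ?_⟩
  rcases hcase with h3 | ⟨h3, h4, h5⟩
  · have h4 : f.coeff 1 - q.coeff 1 = j := by omega
    by_cases h5 : (snp phi S i0 G).Nonempty
    · exact Or.inr (Or.inl ⟨h4, h5⟩)
    · left
      have hs0 : snp phi S i0 G = ∅ := Finset.not_nonempty_iff_eq_empty.mp h5
      have hab := all_big hClp W.min.fp fd hs0
      refine ⟨h4, hcV1, fd.eq, fd.irr, fd.wd, hab, ?_, hdr⟩
      have hbu : ∀ i, i ∈ big G := fun i => by
        unfold big
        exact Finset.mem_filter.mpr ⟨Finset.mem_univ i, hab i⟩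
      obtain ⟨hz1, hz2⟩ := hzero (by rw [hs0]; rfl)
      have hbig' : big G = Finset.univ := Finset.eq_univ_iff_forall.mpr hbu
      have hbr := fun i => big_rank hClp hEvz hEv1 hFcl W.min.fp fd i ((hbig i).mp (hbu i)) (hNiV i)
      choose hb1 U hUs hUG hUr hUz using hbr
      rw [hs0, Finset.card_empty, add_zero, hbig'] at hrk
      rw [hbig'] at hSB hrk2
      have hsum2 : ∑ i, rk (supp (G i)) = ∑ i, 2 * Ni i := by
        rw [← Finset.mul_sum, ← hSB]
        omega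
      have heq : ∀ i, rk (supp (G i)) = 2 * Ni i := by
        intro i
        exact (Finset.sum_eq_sum_iff_of_le (fun i _ => hb1 i)).mp hsum2 i (Finset.mem_univ i)
      have hker : Module.finrank ℤ (Ker (co phi i0)) + 1 = Module.finrank ℤ L := by
        apply (hRk L L).1
        intro h0
        rw [h0] at h
        exact zero_ne_one h
      apply zfree_prod G U hUG (fun i => hUz i (heq i))
      · simp only [hUr]
        rw [hsum2, ← Finset.mul_sum, ← hSB]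
        omega
      · have h6 : rk (supp (cl (co phi i0) S h (-e) D)) ≤
            Module.finrank ℤ (⨆ i, U i : Submodule ℤ (Ker (co phi i0))) := by
          unfold rk
          apply Submodule.finrank_mono
          rw [Submodule.span_le]
          intro x hx
          rw [fd.eq] at hx
          have h7 : x ∈ supp (∏ i, G i) := by
            intro h0
            apply hx
            rw [H71.cst_mul_coeff, h0, mul_zero]
          exact supp_prod G (⨆ i, U i) (fun i a ha => Submodule.mem_iSup_of_mem i (hUG i a ha))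
            Finset.univ x h7
        omega
  · right
    right
    have hN2 : 2 ≤ N' := by omega
    have hne : (big G).Nonempty := by
      rw [Finset.nonempty_iff_ne_empty]
      intro h0
      rw [hN'b, h0, Finset.prod_empty] at hN2
      omega
    obtain ⟨i, hi⟩ := hne
    have hbi : big G = {i} := by
      rw [Finset.eq_singleton_iff_unique_mem]
      refine ⟨hi, fun k hk => ?_⟩
      by_contra hki
      have h6 : Ni i * Ni k ∣ N' := by
        rw [hN'b, ← Finset.mul_prod_erase (big G) Ni hi]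
        exact Nat.mul_dvd_mul_left _ (Finset.dvd_prod_of_mem Ni (Finset.mem_erase.mpr ⟨hki, hk⟩))
      have h7 := Nat.le_of_dvd (by omega) h6
      have h8 := Nat.mul_le_mul ((hbig i).mp hi) ((hbig k).mp hk)
      omega
    obtain ⟨hb1, U, hUs, hUG, hUr, hUz⟩ :=
      big_rank hClp hEvz hEv1 hFcl W.min.fp fd i ((hbig i).mp hi) (hNiV i)
    rw [hbi, Finset.sum_singleton] at hrk hSB hrk2
    have heq : rk (supp (G i)) = 2 * Ni i := by omega
    refine ⟨h3, ⟨i, hbi, zfree_res hExt hUs hUG (hUz heq)⟩, ?_⟩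
    omega

end Pool.Agent.B5.O1.H12
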