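import Pool.Agent.Lib.MP_b5021c_nt.SF.H76.QsgB
import Pool.Agent.Lib.MP_b5021c_nt.O1.H12.Dvk

/-!
# Board b5, ALL `θ`, K ODD, row O1_CNT (helper12), part 2: the sum of the masses with a content

`QsgS` (SF/H76/QsgA.lean, QsgB.lean) for a content `c` with `M c > 1`.
-/

namespace Pool.Agent.B5.O1.H12

open scoped LaurentPolynomial
open AddMonoidAlgebra Pool.Agent.B5 Pool.Agent.B5.H71 Pool.Agent.B5.H76

set_option linter.unusedSectionVars false

section Ind

variable {O : Type} [CommRing O] [IsDomain O] [IsPrincipalIdealRing O] [Coef O] {K : Type}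
  [AddCommGroup K] [Module.Free ℤ K] [Module.Finite ℤ K] {n : ℕ}

/-- THE INDUCTION of SF/H76/QsgA.lean with a factor `R`. -/
theorem qs_indR (hE : EvRS) (hZ : ZfinS) (X V R : AO O K)
    (hst : X * sharp V + sharp X * V = R * (V * sharp V))
    (c : RO O) (hc : c ≠ 0) (G : Fin n → AO O K) (hV : V = cst c * ∏ i, G i)
    (Sn : Finset (Fin n)) (k : Fin n → K →+ ℤ) (b : Fin n → K) (e : Fin n → (RO O)ˣ)
    (hb : ∀ l ∈ Sn, k l (b l) = 1)
    (hXk : ∀ l ∈ Sn, ∀ a ∈ supp X, k l a = 0 ∨ k l a = 1)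
    (hG : ∀ l ∈ Sn, G l = cst ((G l).coeff 0) * pf (b l) (e l))
    (hG0 : ∀ l ∈ Sn, (G l).coeff 0 ≠ 0)
    (hoth : ∀ l ∈ Sn, ∀ i, i ≠ l → ∀ a ∈ supp (G i), k l a = 0)
    (F : ∀ l : Fin n, AO O (Ker (k l)))
    (hF : ∀ l (hl : l ∈ Sn), cl (k l) (b l) (hb l hl) (e l) X =
      cst (c * (G l).coeff 0) * F l *
        cl (k l) (b l) (hb l hl) (e l) (∏ i ∈ Finset.univ.erase l, G i))
    (hU : ∀ l (hl : l ∈ Sn), cl (k l) (b l) (hb l hl) (e l)
      (∏ i ∈ Finset.univ.erase l, G i) ≠ 0)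
    (hFs : ∀ l ∈ Sn, sharp (F l) = F l) (J : Finset (Fin n)) (hJ : J ⊆ Sn) :
    ∃ Xj Z : AO O K,
      (∀ a, ((∀ l ∈ J, k l a = 0) → Xj.coeff a = X.coeff a) ∧
        (¬ (∀ l ∈ J, k l a = 0) → Xj.coeff a = 0)) ∧
      (∀ a, ((∀ l ∈ J, k l a = 0) → (VJ c G J).coeff a = V.coeff a) ∧
        (¬ (∀ l ∈ J, k l a = 0) → (VJ c G J).coeff a = 0)) ∧
      X = (∏ l ∈ J, pf (b l) (e l)) * Xj + Z * VJ c G J ∧
      Xj * sharp (VJ c G J) + sharp Xj * VJ c G J =
        (R + ∑ l ∈ J, em (Ker (k l)) (F l)) * (VJ c G J * sharp (VJ c G J)) := by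
  classical
  induction J using Finset.induction_on with
  | empty =>
    have hV0 : VJ c G ∅ = V := by
      unfold VJ
      rw [Finset.prod_empty, mul_one, Finset.compl_empty, hV]
    refine ⟨X, 0, ?_, ?_, ?_, ?_⟩
    · intro a
      refine ⟨fun _ => rfl, fun h => ?_⟩
      exact absurd (fun l hl => absurd hl (Finset.notMem_empty l)) h
    · intro a
      rw [hV0]
      refine ⟨fun _ => rfl, fun h => ?_⟩
      exact absurd (fun l hl => absurd hl (Finset.notMem_empty l)) h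
    · rw [Finset.prod_empty, one_mul, zero_mul, add_zero]
    · rw [hV0, Finset.sum_empty, add_zero]
      exact hst
  | insert m J hm ih =>
    obtain ⟨Xj, Z, hXj, hVj, hXe, hJe⟩ := ih (fun l hl => hJ (Finset.mem_insert_of_mem hl))
    have hmS : m ∈ Sn := hJ (Finset.mem_insert_self _ _)
    have hbm := hb m hmS
    have hins := VJ_insert c G J m hm (b m) (e m) (hG m hmS)
    obtain ⟨W, hW⟩ := VJ_em c G J m (k m) (hoth m hmS)
    -- the value at `x_m = 1`
    have hclP : cl (k m) (b m) hbm (e m) (pf (b m) (e m)) = 0 := cl_factor _ _ _ _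
    have hclX : cl (k m) (b m) hbm (e m) X =
        cl (k m) (b m) hbm (e m) (∏ l ∈ J, pf (b l) (e l)) * cl (k m) (b m) hbm (e m) Xj := by
      conv_lhs => rw [hXe]
      rw [map_add, map_mul, map_mul, hins, map_mul, hclP, zero_mul, mul_zero, add_zero]
    have hpe := prod_erase_eq c G J m hm b e (fun l hl => hG l (hJ (Finset.mem_insert_of_mem hl)))
    have hclE := congrArg (cl (k m) (b m) hbm (e m)) hpe
    rw [map_mul, map_mul, cl_cst, hW, cl_em] at hclE
    have hPne : cl (k m) (b m) hbm (e m) (∏ l ∈ J, pf (b l) (e l)) ≠ 0 := by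
      intro h0
      rw [h0, zero_mul] at hclE
      have h1 : (cst (c * (G m).coeff 0) : AO O (Ker (k m))) ≠ 0 :=
        cst_ne (mul_ne_zero hc (hG0 m hmS))
      exact (mul_ne_zero h1 (hU m hmS)) hclE
    have hclj : cl (k m) (b m) hbm (e m) Xj = F m * W := by
      apply mul_left_cancel₀ hPne
      rw [← hclX, hF m hmS]
      linear_combination (F m) * hclE
    have hXj01 : ∀ a ∈ supp Xj, k m a = 0 ∨ k m a = 1 := by
      intro a ha
      apply hXk m hmS a
      by_cases h1 : ∀ l ∈ J, k l a = 0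
      · change X.coeff a ≠ 0
        rw [← (hXj a).1 h1]
        exact ha
      · exact absurd ((hXj a).2 h1) ha
    have hsplit := affine_split (k m) (b m) hbm (e m) Xj hXj01
    rw [hclj, map_mul, ← hW] at hsplit
    obtain ⟨X', hX'⟩ : ∃ X' : AO O K, X' = em (Ker (k m)) (res (Ker (k m)) Xj) := ⟨_, rfl⟩
    obtain ⟨T, hT⟩ : ∃ T : AO O K, T = em (Ker (k m)) (F m) := ⟨_, rfl⟩
    obtain ⟨V', hV'⟩ : ∃ V' : AO O K, V' = VJ c G (insert m J) := ⟨_, rfl⟩
    obtain ⟨x, hx⟩ : ∃ x : AO O K, x = single (b m) (((e m)⁻¹ : (RO O)ˣ) : RO O) := ⟨_, rfl⟩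
    obtain ⟨y, hy⟩ : ∃ y : AO O K, y = single (-(b m)) ((e m : (RO O)ˣ) : RO O) := ⟨_, rfl⟩
    have hpx : (pf (b m) (e m) : AO O K) = 1 - x := by rw [hx]; rfl
    have hxy : x * y = 1 := by rw [hx, hy]; exact single_inv (b m) (e m)
    have hsx : sharp x = y := by rw [hx, hy]; exact sharp_x hE hZ (b m) (e m)
    have hsT : sharp T = T := by rw [hT, sharp_em, hFs m hmS]
    rw [← hX', ← hT, ← hV', ← hx, hpx] at hsplit
    rw [← hV', hpx] at hins
    have hall : ∀ a : K, (∀ l ∈ insert m J, k l a = 0) ↔ (k m a = 0 ∧ ∀ l ∈ J, k l a = 0) := by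
      intro a
      constructor
      · intro h1
        exact ⟨h1 m (Finset.mem_insert_self _ _), fun l hl => h1 l (Finset.mem_insert_of_mem hl)⟩
      · rintro ⟨h1, h2⟩ l hl
        rcases Finset.mem_insert.mp hl with h3 | h3
        · rw [h3]; exact h1
        · exact h2 l h3
    have hXc : ∀ a, k m a = 0 → X'.coeff a = Xj.coeff a := by
      intro a ha
      have h1 := em_coeff (Ker (k m)) (res (Ker (k m)) Xj) ⟨a, ha⟩
      rw [← hX', res_coeff] at h1
      exact h1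
    have hXc' : ∀ a, k m a ≠ 0 → X'.coeff a = 0 := by
      intro a ha
      rw [hX']
      exact em_coeff_not _ _ _ ha
    have hVc' : ∀ a, k m a ≠ 0 → V'.coeff a = 0 := by
      intro a ha
      rw [hV', hW]
      exact em_coeff_not _ _ _ ha
    have hVc : ∀ a, k m a = 0 → V'.coeff a = (VJ c G J).coeff a := by
      intro a ha
      have h5 : V'.coeff (-(b m) + a) = 0 := by
        apply hVc'
        rw [map_add, map_neg, hbm, ha]
        norm_num
      rw [hins, sub_mul, one_mul, coeff_sub, Finsupp.sub_apply, hx, coeff_single_mul_apply,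
        h5, mul_zero, sub_zero]
    refine ⟨X', (∏ l ∈ J, pf (b l) (e l)) * (x * T) + Z * (1 - x), ?_, ?_, ?_, ?_⟩
    · intro a
      rw [hall]
      by_cases h1 : k m a = 0
      · rw [hXc a h1]
        refine ⟨fun h2 => (hXj a).1 h2.2, fun h2 => (hXj a).2 (fun h3 => h2 ⟨h1, h3⟩)⟩
      · rw [hXc' a h1]
        exact ⟨fun h2 => absurd h2.1 h1, fun _ => rfl⟩
    · intro a
      rw [hall, ← hV']
      by_cases h1 : k m a = 0
      · rw [hVc a h1]
        refine ⟨fun h2 => (hVj a).1 h2.2, fun h2 => (hVj a).2 (fun h3 => h2 ⟨h1, h3⟩)⟩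
      · rw [hVc' a h1]
        exact ⟨fun h2 => absurd h2.1 h1, fun _ => rfl⟩
    · rw [Finset.prod_insert hm, ← hV', hpx]
      rw [hXe, hins]
      conv_lhs => rw [hsplit]
      ring
    · rw [Finset.sum_insert hm, ← hV', ← hT]
      have hbm0 : b m ≠ 0 := by
        intro h1
        rw [h1, map_zero] at hbm
        exact zero_ne_one hbm
      have h1x : (1 - x : AO O K) ≠ 0 := by
        rw [← hpx]
        exact pf_ne (b m) hbm0 (e m)
      have h1y : (1 - y : AO O K) ≠ 0 := by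
        intro h1
        have h2 : y = 1 := (sub_eq_zero.mp h1).symm
        rw [h2, mul_one] at hxy
        exact h1x (by rw [hxy, sub_self])
      have hsXj : sharp Xj = (1 - y) * sharp X' + y * (T * sharp V') := by
        conv_lhs => rw [hsplit]
        rw [map_add, map_mul, map_mul, map_mul, map_sub, map_one, hsx, hsT]
      have hsV : sharp (VJ c G J) = (1 - y) * sharp V' := by
        rw [hins, map_mul, map_sub, map_one, hsx]
      rw [hsV, hsXj, hins] at hJe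
      conv_lhs at hJe => rw [hsplit]
      apply mul_left_cancel₀ (mul_ne_zero h1x h1y)
      linear_combination hJe + T * V' * sharp V' * hxy

end Ind

open Polynomial (toLaurent X C)

/-- THE SUM OF THE MASSES with a content (`dvK` for the single masses). -/
theorem qsk (h1 : SmallS) (h2 : QstS) (hQp : Qp3S) (hKe : KerEvS) (hMm : MmulS) (hMV : MVS)
    (hE1 : E1S) (hDb : Db3S) (hNn : Nn3S) (hHp : Hp3S)
    (hGen : GenS) (hE : SlEvalS) (hEv : EvRS) (hSh : SharpS) (hDe : DensS) (hZ : ZfinS)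
    (hU : UnitAS) (hFace : FaceS) (hSt : StSpecS) (hMu : MultiS) (hE2 : E2S) (hP : PrimS)
    (hB3 : B3S) (hFull : FullS)
    {P L : Type} [Fintype P] [DecidableEq P] [AddCommGroup L] [Module.Free ℤ L]
    [Module.Finite ℤ L] (phi : L →+ (P → ℤ)) (D : AO ℤ L) (S : L) (i0 : P) (eta : (RO ℤ)ˣ)
    (h : co phi i0 S = 1) (c : RO ℤ) (n : ℕ) (G : Fin n → AO ℤ (Ker (co phi i0)))
    (fd : FD phi D S i0 eta h c n G) (N : ℝ)
    (hVV : ClassV N (D.coeff 0 + (eta : RO ℤ) * D.coeff S)) (m0 : ℤ) (v : Polynomial ℤ)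
    (hv : D.coeff 0 + (eta : RO ℤ) * D.coeff S = LaurentPolynomial.T m0 * toLaurent v)
    (hd : ∀ z0 : ℂ, ‖z0‖ = 1 → ¬ (X - C z0) ^ 2 ∣ v.map Coef.emb) :
    ∃ (m : Fin n → ℕ) (t : Fin n → RO ℤ),
      (∀ l ∈ snp phi S i0 G, 1 ≤ m l ∧ (m l : ℝ) ≤ M c ∧
        ∃ (L' : Type) (_ : AddCommGroup L') (_ : Module.Free ℤ L') (_ : Module.Finite ℤ L')
          (T : AO ℤ L'), T ≠ 0 ∧ Npos T ∧ T.coeff 0 = t l) ∧
      ∀ z : Circle, (∑ l ∈ snp phi S i0 G, (evR z (t l)).re / (m l : ℝ)) *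
          ‖evR z (D.coeff 0 + (eta : RO ℤ) * D.coeff S)‖ ^ 2 ≤
        2 * (evR z (D.coeff 0) *
            (starRingEnd ℂ) (evR z (D.coeff 0 + (eta : RO ℤ) * D.coeff S))).re -
          ‖evR z (D.coeff 0 + (eta : RO ℤ) * D.coeff S)‖ ^ 2 := by
  classical
  -- the data
  have key : ∀ l : Fin n, ∃ (d : QD ℤ phi i0) (m : ℕ), l ∈ snp phi S i0 G →
      ∃ (hj : co (phK phi (co phi i0)) d.j d.b = 1)
        (q : AO ℤ (Ker (co (phK phi (co phi i0)) d.j))),
        QC phi D S i0 eta h c n G l d.b d.j d.e hj q ∧ 1 ≤ m ∧ (m : ℝ) ≤ M c ∧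
        cst (LaurentPolynomial.C (m : ℤ)) * q = cst (c * (G l).coeff 0) * d.F ∧ NnT d.F := by
    intro l
    by_cases hl : l ∈ snp phi S i0 G
    · have hl' : ¬ 1 < M ((G l).coeff 0) ∧ ¬ Pure phi S i0 (G l) := by
        have h3 := hl
        unfold snp at h3
        exact (Finset.mem_filter.mp h3).2
      obtain ⟨_, _, h3⟩ := h1 ℤ P L phi D S i0 eta h c n G fd l hl'.1
      obtain ⟨b, j, e, hsp⟩ := h3 hl'.2
      have hj : co (phK phi (co phi i0)) j b = 1 := hsp.bj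
      obtain ⟨q, hq0, hxe, hrq, _, _⟩ := h2 ℤ P L phi D S i0 eta h c n G fd l b j e hsp hj
      have hqc : QC phi D S i0 eta h c n G l b j e hj q := ⟨fd, hsp, hq0, hxe, hrq⟩
      have hvp : D.coeff 0 + (eta : RO ℤ) * D.coeff S =
          (c * (G l).coeff 0) * ∏ i ∈ Finset.univ.erase l, (G i).coeff 0 := by
        rw [fd.v00, mul_assoc, Finset.mul_prod_erase Finset.univ
            (fun i => (G i).coeff 0) (Finset.mem_univ l)]
      obtain ⟨mu, -, huu, -, -⟩ := (hE1 ℤ).1 N (c * (G l).coeff 0) _ (by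
        rw [← hvp]; exact hVV)
      obtain ⟨m, F, hm1, hmM, hF, hFn⟩ := dvK hNn hKe hMm hMV hE1 hDb hEv hZ q
        (c * (G l).coeff 0) (∏ i ∈ Finset.univ.erase l, (G i).coeff 0) hq0
        (mul_ne_zero fd.c0 hsp.u0.ne_zero) mu huu hrq
        (hQp ℤ P L phi D S i0 eta h c n G l b j e hj q hqc) m0 v (by
          rw [← hv, hvp]) hd
      refine ⟨⟨b, j, e, F⟩, m, fun _ => ⟨hj, q, hqc, hm1, ?_, hF, hFn⟩⟩
      rw [(hMm ℤ).1 c _ fd.c0 hsp.u0.ne_zero, (hMm ℤ).2.2 _ hsp.u0, mul_one] at hmM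
      exact hmM
    · exact ⟨⟨0, i0, 1, 0⟩, 0, fun h3 => absurd h3 hl⟩
  choose d m hdok using key
  set Sn := snp phi S i0 G with hSn
  obtain ⟨cc, hcc⟩ : ∃ cc : ℕ → RO ℤ, ∀ r, cc r = LaurentPolynomial.C (r : ℤ) := ⟨_, fun r => rfl⟩
  have hccm : ∀ r s : ℕ, cc (r * s) = cc r * cc s := by
    intro r s
    rw [hcc, hcc, hcc, Nat.cast_mul, map_mul]
  have hccr : ∀ r : ℕ, rsh (cc r) = cc r := by
    intro r
    rw [hcc, rsh_int, LaurentPolynomial.invert_C]
  have hcce : ∀ (r : ℕ) (z : Circle), evR z (cc r) = (r : ℂ) := by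
    intro r z
    rw [hcc]
    unfold evR
    rw [LaurentPolynomial.eval₂_C]
    change ((Int.castRingHom ℂ) (r : ℤ)) = _
    rw [eq_intCast, Int.cast_natCast]
  have hcc0 : ∀ r : ℕ, 1 ≤ r → cc r ≠ 0 := by
    intro r hr h0
    have h3 := hcce r 1
    rw [h0, map_zero] at h3
    have h4 : r = 0 := by exact_mod_cast h3.symm
    omega
  refine ⟨m, fun l => (d l).F.coeff 0, ?_, ?_⟩
  · intro l hl
    obtain ⟨hj, q, hqc, hm1, hmM, hqF, hFn⟩ := hdok l hl
    refine ⟨hm1, hmM, _, _, inferInstance, inferInstance, (d l).F, ?_, ?_, rfl⟩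
    · intro h0
      rw [h0, mul_zero] at hqF
      rw [← hcc] at hqF
      exact (mul_ne_zero (cst_ne (hcc0 _ hm1)) hqc.q0) hqF
    · exact ⟨sharp_of_nnT hDe hSh _ hFn, fun z u => (hFn z u).2⟩
  -- the constants
  obtain ⟨κ, hκ⟩ : ∃ κ : ℕ, κ = ∏ l ∈ Sn, m l := ⟨_, rfl⟩
  obtain ⟨κl, hκl⟩ : ∃ κl : Fin n → ℕ, ∀ l, κl l = ∏ l' ∈ Sn.erase l, m l' :=
    ⟨fun l => ∏ l' ∈ Sn.erase l, m l', fun l => rfl⟩
  have hm1 : ∀ l ∈ Sn, 1 ≤ m l := fun l hl => by
    obtain ⟨hj, q, hqc, hm1, -⟩ := hdok l hl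
    exact hm1
  have hκκ : ∀ l ∈ Sn, κ = κl l * m l := fun l hl => by
    rw [hκ, hκl, Finset.prod_erase_mul Sn m hl]
  have hκ1 : 1 ≤ κ := by
    rw [hκ]
    exact Finset.one_le_prod' hm1
  -- the induction
  set k : Fin n → Ker (co phi i0) →+ ℤ := fun l => co (phK phi (co phi i0)) (d l).j with hk
  have hb : ∀ l ∈ Sn, k l (d l).b = 1 := fun l hl => (hdok l hl).1
  have hSp : ∀ l ∈ Sn, Spt phi S i0 G l (d l).b (d l).j (d l).e := by
    intro l hl
    obtain ⟨hj, q, hqc, -⟩ := hdok l hl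
    exact hqc.sp
  have hbin1 : ∀ a ∈ supp D, co phi i0 a = 0 ∨ co phi i0 a = 1 :=
    fun a ha => fd.cc.dd.bin a ha i0
  have hstar := qs_star hU hEv hZ (co phi i0) S h eta D hbin1 fd.cc.dd.st.1 fd.cc.ray.1
    fd.cc.dd.un
  have hstarR : cst (cc κ) * res (Ker (co phi i0)) D * sharp (cl (co phi i0) S h eta D) +
      sharp (cst (cc κ) * res (Ker (co phi i0)) D) * cl (co phi i0) S h eta D =
      cst (cc κ) * (cl (co phi i0) S h eta D * sharp (cl (co phi i0) S h eta D)) := by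
    rw [map_mul, sharp_cst, hccr]
    linear_combination (cst (cc κ)) * hstar
  have hG : ∀ l ∈ Sn, G l = cst ((G l).coeff 0) * pf (d l).b (d l).e := fun l hl => (hSp l hl).eq
  have hG0 : ∀ l ∈ Sn, (G l).coeff 0 ≠ 0 := fun l hl => (hSp l hl).u0.ne_zero
  have hoth : ∀ l ∈ Sn, ∀ i, i ≠ l → ∀ a ∈ supp (G i), k l a = 0 :=
    fun l hl i hi a ha => (hSp l hl).other i hi a ha
  have hXk : ∀ l ∈ Sn, ∀ a ∈ supp (cst (cc κ) * res (Ker (co phi i0)) D), k l a = 0 ∨ k l a = 1 := by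
    intro l _ a ha
    apply fd.cc.dd.bin (a : L) _ (d l).j
    intro h3
    apply ha
    rw [cst_mul_coeff, res_coeff, h3, mul_zero]
  obtain ⟨hSD, hS0, lam, hS, hp⟩ := fd.cc.ray
  have hposV := pos_cl (co phi i0) S h eta D lam hS hp
  have hGf : ∀ i, FullAt (lam.comp (incl (Ker (co phi i0)))) (G i) := fun i =>
    fd.full i _ hposV
  have hUne : ∀ l (hl : l ∈ Sn), cl (k l) (d l).b (hb l hl) (d l).e
      (∏ i ∈ Finset.univ.erase l, G i) ≠ 0 := by
    intro l hl h0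
    rw [cl_prod l (d l).b (d l).j (d l).e (hSp l hl) (hb l hl)] at h0
    have h3 := full_U hFull l (d l).b (d l).j (d l).e (hSp l hl) (hb l hl) _ hGf
    exact h3.1 (by rw [h0]; rfl)
  have hF : ∀ l (hl : l ∈ Sn), cl (k l) (d l).b (hb l hl) (d l).e
      (cst (cc κ) * res (Ker (co phi i0)) D) =
      cst (c * (G l).coeff 0) * (cst (cc (κl l)) * (d l).F) *
        cl (k l) (d l).b (hb l hl) (d l).e (∏ i ∈ Finset.univ.erase l, G i) := by
    intro l hl
    obtain ⟨hj, q, hqc, -, -, hqF, -⟩ := hdok l hl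
    rw [cl_prod l (d l).b (d l).j (d l).e (hSp l hl) (hb l hl), map_mul, cl_cst]
    have h3 : cl (k l) (d l).b (hb l hl) (d l).e (res (Ker (co phi i0)) D) =
      q * Uo phi i0 (d l).j G l := hqc.xe
    rw [← hcc] at hqF
    rw [h3, hκκ l hl, hccm, cst_mul]
    change _ = _ * Uo phi i0 (d l).j G l
    linear_combination (cst (cc (κl l)) * Uo phi i0 (d l).j G l) * hqF
  have hFs0 : ∀ l ∈ Sn, sharp (d l).F = (d l).F := by
    intro l hl
    obtain ⟨hj, q, hqc, -, -, hqF, hFn⟩ := hdok l hl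
    exact sharp_of_nnT hDe hSh _ hFn
  have hFs : ∀ l ∈ Sn, sharp (cst (cc (κl l)) * (d l).F) = cst (cc (κl l)) * (d l).F := by
    intro l hl
    rw [map_mul, sharp_cst, hccr, hFs0 l hl]
  obtain ⟨XJ, Z, hXJ, hVJ, -, hJ⟩ := qs_indR hEv hZ (cst (cc κ) * res (Ker (co phi i0)) D)
    (cl (co phi i0) S h eta D) (cst (cc κ)) hstarR c fd.c0 G fd.eq Sn k (fun l => (d l).b)
    (fun l => (d l).e) hb hXk hG hG0 hoth (fun l => cst (cc (κl l)) * (d l).F) hF hUne hFs Sn
    (Finset.Subset.refl _)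
  -- notation
  obtain ⟨g, hg⟩ : ∃ g : RO ℤ, g = c * ∏ l ∈ Sn, (G l).coeff 0 := ⟨_, rfl⟩
  obtain ⟨U, hUd⟩ : ∃ U : AO ℤ (Ker (co phi i0)), U = ∏ i ∈ Snᶜ, G i := ⟨_, rfl⟩
  have hVU : VJ c G Sn = cst g * U := by rw [hg, hUd]; rfl
  rw [hVU] at hJ hVJ
  have hg0 : g ≠ 0 := by
    rw [hg]
    exact mul_ne_zero fd.c0 (Finset.prod_ne_zero_iff.mpr hG0)
  obtain ⟨T, hT⟩ : ∃ T : AO ℤ (Ker (co phi i0)),
    T = ∑ l ∈ Sn, em (Ker (k l)) (cst (cc (κl l)) * (d l).F) := ⟨_, rfl⟩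
  have hsT : sharp T = T := by
    rw [hT, map_sum]
    apply Finset.sum_congr rfl
    intro l hl
    rw [sharp_em, hFs l hl]
  rw [← hT] at hJ
  obtain ⟨gc, hgc⟩ : ∃ gc : RO ℤ, gc = cc κ * g := ⟨_, rfl⟩
  have hgcg : (cst gc : AO ℤ (Ker (co phi i0))) = cst (cc κ) * cst g := by rw [hgc, cst_mul]
  have hgcr : (cst (rsh gc) : AO ℤ (Ker (co phi i0))) = cst (cc κ) * cst (rsh g) := by
    rw [hgc, map_mul, hccr, cst_mul]
  have hqu : XJ * sharp (cst gc * U) + sharp XJ * (cst gc * U) - (cst gc * U) *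
      sharp (cst gc * U) = (cst g * T) * cst (rsh gc) * (U * sharp U) := by
    have h3 : sharp (cst g * U) = cst (rsh g) * sharp U := by rw [map_mul, sharp_cst]
    have h4 : sharp (cst gc * U) = cst (cc κ) * (cst (rsh g) * sharp U) := by
      rw [map_mul, sharp_cst, hgcr]
      ring
    rw [h3] at hJ
    rw [h4, hgcg, hgcr]
    linear_combination (cst (cc κ)) * hJ
  have hrq : (cst g * T) * cst (rsh gc) = sharp (cst g * T) * cst gc := by
    rw [map_mul, sharp_cst, hsT, hgcg, hgcr]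
    ring
  -- full and primitive
  obtain ⟨hUf, hUp⟩ := full_prod hFull hP _ hGf fd.irr fd.wd Snᶜ
  rw [← hUd] at hUf hUp
  have hUst : Stable U := (hFull ℤ _ U 1 _).1 hUf
  have hU0 : ∀ z : Circle, evR z (U.coeff 0) ≠ 0 := hB3 ℤ _ U hUst hUp
  have hD0 : ∀ z : Circle, evR z (D.coeff 0) ≠ 0 := (hE2 ℤ P L phi D fd.cc.dd fd.cc.two).1
  -- the face
  obtain ⟨kj, hkj⟩ : ∃ kj : L →+ ℤ, kj = ∑ l ∈ Sn, co phi (d l).j := ⟨_, rfl⟩
  have hkj' : ∀ a : L, kj a = ∑ l ∈ Sn, phi a (d l).j := by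
    intro a
    rw [hkj, AddMonoidHom.finsetSum_apply]
    rfl
  have hkjS : kj S = 0 := by
    rw [hkj']
    apply Finset.sum_eq_zero
    intro l hl
    exact (Finset.mem_filter.mp (hSp l hl).jO).2
  have hSj : ∀ l ∈ Sn, phi S (d l).j = 0 := fun l hl => (Finset.mem_filter.mp (hSp l hl).jO).2
  have hbinj : ∀ a, D.coeff a ≠ 0 → (kj a = 0 ↔ ∀ l ∈ Sn, phi a (d l).j = 0) := by
    intro a ha
    rw [hkj', Finset.sum_eq_zero_iff_of_nonneg]
    intro l _
    rcases fd.cc.dd.bin a ha (d l).j with h3 | h3 <;> rw [h3]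
    exact zero_le_one
  have hDj : Nn kj D := by
    intro a ha
    rw [hkj']
    apply Finset.sum_nonneg
    intro l _
    rcases fd.cc.dd.bin a (Finsupp.mem_support_iff.mp ha) (d l).j with h3 | h3 <;> rw [h3]
    exact zero_le_one
  have hgp : ∀ a : L, (gpart kj 0 D).coeff a = if kj a = 0 then D.coeff a else 0 := by
    intro a
    change (D.coeff.filter fun a => kj a = 0) a = _
    rw [Finsupp.filter_apply]
  obtain ⟨X0, hX0d⟩ : ∃ X0 : AO ℤ (Ker (co phi i0)),
    X0 = res (Ker (co phi i0)) (gpart kj 0 D) := ⟨_, rfl⟩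
  have hX0c : ∀ a : Ker (co phi i0), ((∀ l ∈ Sn, k l a = 0) → X0.coeff a = D.coeff (a : L)) ∧
      (¬ (∀ l ∈ Sn, k l a = 0) → X0.coeff a = 0) := by
    intro a
    rw [hX0d, res_coeff, hgp]
    constructor
    · intro h3
      have h4 : kj (a : L) = 0 := by
        rw [hkj']
        exact Finset.sum_eq_zero (fun l hl => h3 l hl)
      rw [if_pos h4]
    · intro h3
      by_cases h4 : D.coeff (a : L) = 0
      · rw [h4, ite_self]
      · rw [if_neg]
        intro h5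
        exact h3 (fun l hl => (hbinj _ h4).mp h5 l hl)
  have hXJe : XJ = cst (cc κ) * X0 := by
    apply AddMonoidAlgebra.ext
    apply Finsupp.ext
    intro a
    rw [cst_mul_coeff]
    by_cases h3 : ∀ l ∈ Sn, k l a = 0
    · rw [(hXJ a).1 h3, (hX0c a).1 h3, cst_mul_coeff, res_coeff]
    · rw [(hXJ a).2 h3, (hX0c a).2 h3, mul_zero]
  obtain ⟨YJ, hYJ⟩ : ∃ YJ : AO ℤ (Ker (co phi i0)),
    YJ = res (Ker (co phi i0)) (single (-S) 1 * gpart kj 0 D) := ⟨_, rfl⟩
  have hV := qs_V (co phi i0) S h eta D hbin1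
  have hVsum : cst g * U = X0 + cst (eta : RO ℤ) * YJ := by
    apply AddMonoidAlgebra.ext
    apply Finsupp.ext
    intro a
    rw [coeff_add, Finsupp.add_apply, cst_mul_coeff (eta : RO ℤ), hYJ, res_coeff,
      coeff_single_mul_apply, one_mul, neg_neg, hgp, map_add, hkjS, zero_add]
    by_cases h3 : ∀ l ∈ Sn, k l a = 0
    · have h4 : kj (a : L) = 0 := by
        rw [hkj']
        exact Finset.sum_eq_zero (fun l hl => h3 l hl)
      rw [(hVJ a).1 h3, (hX0c a).1 h3, if_pos h4, hV, coeff_add, Finsupp.add_apply,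
        cst_mul_coeff, res_coeff, res_coeff (Ker (co phi i0)) (single (-S) 1 * D),
        coeff_single_mul_apply, one_mul, neg_neg]
    · rw [(hVJ a).2 h3, (hX0c a).2 h3, zero_add]
      by_cases h4 : D.coeff (S + (a : L)) = 0
      · rw [h4, ite_self, mul_zero]
      · rw [if_neg, mul_zero]
        intro h5
        apply h3
        intro l hl
        have h6 : kj (S + (a : L)) = 0 := by rw [map_add, hkjS, zero_add, h5]
        have h7 := (hbinj _ h4).mp h6 l hl
        rw [map_add, Pi.add_apply, hSj l hl, zero_add] at h7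
        exact h7
  -- constant coefficients
  have hX0 : X0.coeff 0 = D.coeff 0 := by
    rw [(hX0c 0).1 (fun l _ => map_zero _)]
    rfl
  have hV0 : g * U.coeff 0 = D.coeff 0 + (eta : RO ℤ) * D.coeff S := by
    have h3 := (hVJ 0).1 (fun l _ => map_zero _)
    rw [cst_mul_coeff, hV, coeff_add, Finsupp.add_apply, cst_mul_coeff, res_coeff, res_coeff,
      coeff_single_mul_apply, one_mul, neg_neg] at h3
    rw [h3]
    simp
  -- positivity of the supports
  have hXpos : Pos (lam.comp (incl (Ker (co phi i0)))) X0 := by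
    intro a ha ha0
    rw [Finsupp.mem_support_iff] at ha
    have h3 : D.coeff (a : L) ≠ 0 := by
      by_cases h4 : ∀ l ∈ Sn, k l a = 0
      · rw [(hX0c a).1 h4] at ha
        exact ha
      · exact absurd ((hX0c a).2 h4) ha
    apply hp _ h3
    · intro h4
      exact ha0 (Subtype.ext h4)
    · intro h4
      have h5 : co phi i0 (a : L) = 0 := a.2
      rw [h4, h] at h5
      exact one_ne_zero h5
  -- generic functional
  obtain ⟨Q, hQ⟩ : ∃ Q : AO ℤ (Ker (co phi i0)), Q = cst g * T := ⟨_, rfl⟩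
  obtain ⟨mu, -, hmu1, hmu2⟩ := hGen (Ker (co phi i0))
    ((X0.coeff.support ∪ U.coeff.support).erase 0) (insert 0 Q.coeff.support) ⊥
    (lam.comp (incl (Ker (co phi i0))))
    (fun k hk => by rw [(Submodule.mem_bot ℤ).mp hk, map_zero])
    (fun m a hm hma => by
      rw [Submodule.mem_bot] at hma ⊢
      exact (smul_eq_zero.mp hma).resolve_left hm)
    (fun a ha => by
      rw [Finset.mem_erase, Finset.mem_union] at ha
      rcases ha.2 with h1 | h1
      · exact hXpos a h1 ha.1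
      · exact hUf.2.1 a h1 ha.1)
    (fun a _ a' _ haa => sub_eq_zero.mp ((Submodule.mem_bot ℤ).mp haa))
  have hXm : Pos mu X0 := fun a ha ha0 => hmu1 a (Finset.mem_erase.mpr ⟨ha0,
    Finset.mem_union_left _ ha⟩)
  have hXmJ : Pos mu XJ := by
    intro a ha ha0
    apply hXm a _ ha0
    rw [Finsupp.mem_support_iff] at ha ⊢
    intro h3
    apply ha
    rw [hXJe, cst_mul_coeff, h3, mul_zero]
  have hUm : Pos mu U := fun a ha ha0 => hmu1 a (Finset.mem_erase.mpr ⟨ha0,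
    Finset.mem_union_right _ ha⟩)
  have hQm : ∀ a ∈ Q.coeff.support, a ≠ 0 → mu a ≠ 0 := by
    intro a ha ha0 h1
    exact ha0 (hmu2 a (Finset.mem_insert_of_mem ha) 0 (Finset.mem_insert_self _ _)
      (by rw [h1, map_zero]))
  have hYm : ∀ a ∈ supp YJ, 0 ≤ mu a := by
    intro a ha
    by_cases ha0 : a = 0
    · rw [ha0, map_zero]
    have h10 := congrArg (fun F : AO ℤ (Ker (co phi i0)) => F.coeff a) hVsum
    simp only [coeff_add, Finsupp.add_apply, cst_mul_coeff] at h10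
    by_cases h11 : U.coeff a = 0
    · have h12 : X0.coeff a ≠ 0 := by
        intro h13
        rw [h11, h13, mul_zero, zero_add] at h10
        rcases mul_eq_zero.mp h10.symm with h14 | h14
        · exact eta.ne_zero h14
        · exact ha h14
      exact (hXm a (Finsupp.mem_support_iff.mpr h12) ha0).le
    · exact (hUm a (Finsupp.mem_support_iff.mpr h11) ha0).le
  have hκR : (0 : ℝ) < κ := by exact_mod_cast hκ1
  -- the inequality where `g` is not zero
  have hmain : ∀ z : Circle, evR z g ≠ 0 →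
      (∑ l ∈ Sn, (evR z ((d l).F.coeff 0)).re / (m l : ℝ)) *
      ‖evR z (D.coeff 0 + (eta : RO ℤ) * D.coeff S)‖ ^ 2 ≤
      2 * (evR z (D.coeff 0) *
        (starRingEnd ℂ) (evR z (D.coeff 0 + (eta : RO ℤ) * D.coeff S))).re -
        ‖evR z (D.coeff 0 + (eta : RO ℤ) * D.coeff S)‖ ^ 2 := by
    intro z hgz
    have hgcz : evR z gc = (κ : ℂ) * evR z g := by rw [hgc, map_mul, hcce]
    have hgcz0 : evR z gc ≠ 0 := by
      rw [hgcz]
      exact mul_ne_zero (by exact_mod_cast hκR.ne') hgz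
    rw [← hQ] at hqu hrq
    have hcore := H24qm.core hHp hE hEv hSh XJ U Q gc z mu hXmJ hUm hQm hqu hrq hgcz0 (by
      intro u s hs
      refine ⟨(hSt ℤ _ U).2.2 hUst mu hUm z (hU0 z) u s hs, ?_⟩
      have hle := qs_core hFace hSt hMu (co phi i0) kj S h D hbin1 hDj fd.cc.dd.st mu
        (by rw [← hX0d]; exact hXm) (by rw [← hYJ]; exact hYm) z (hD0 z) u s hs
      rw [← hX0d, ← hYJ] at hle
      have hsl : evR z g * (sl u mu (spec z U)).eval s = (sl u mu (spec z X0)).eval s +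
          evR z (eta : RO ℤ) * (sl u mu (spec z YJ)).eval s := by
        rw [← sl_cst_mul, ← sl_cst_mul, hVsum, map_add, sl_add, Polynomial.eval_add]
      have hre : ‖(sl u mu (spec z X0)).eval s +
          evR z (eta : RO ℤ) * (sl u mu (spec z YJ)).eval s‖ ^ 2 ≤
          2 * ((sl u mu (spec z X0)).eval s * (starRingEnd ℂ) ((sl u mu (spec z X0)).eval s +
          evR z (eta : RO ℤ) * (sl u mu (spec z YJ)).eval s)).re := by
        apply re_of_le
        rw [norm_mul, (hEv ℤ).2.1 z _ eta.isUnit, one_mul]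
        exact hle
      rw [hXJe, sl_cst_mul, hcce, hgcz, mul_assoc, hsl, norm_mul, mul_pow, map_mul]
      have h3 : (κ : ℂ) * (sl u mu (spec z X0)).eval s * ((starRingEnd ℂ) (κ : ℂ) *
          (starRingEnd ℂ) ((sl u mu (spec z X0)).eval s +
          evR z (eta : RO ℤ) * (sl u mu (spec z YJ)).eval s)) =
          (((κ : ℝ) ^ 2 : ℝ) : ℂ) * ((sl u mu (spec z X0)).eval s *
          (starRingEnd ℂ) ((sl u mu (spec z X0)).eval s +
          evR z (eta : RO ℤ) * (sl u mu (spec z YJ)).eval s)) := by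
        rw [Complex.conj_natCast]
        push_cast
        ring
      rw [h3, Complex.re_ofReal_mul, Complex.norm_natCast]
      nlinarith [sq_nonneg (κ : ℝ)])
    have hX0' : evR z (XJ.coeff 0) = (κ : ℂ) * evR z (D.coeff 0) := by
      rw [hXJe, cst_mul_coeff, map_mul, hcce, hX0]
    have hU0' : evR z gc * evR z (U.coeff 0) = (κ : ℂ) *
        evR z (D.coeff 0 + (eta : RO ℤ) * D.coeff S) := by
      rw [hgcz, mul_assoc, ← map_mul, hV0]
    have hQ0 : Q.coeff 0 = g * ∑ l ∈ Sn, cc (κl l) * (d l).F.coeff 0 := by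
      rw [hQ, cst_mul_coeff, hT, coeff_sum, Finsupp.finsetSum_apply]
      congr 1
      apply Finset.sum_congr rfl
      intro l _
      rw [← cst_mul_coeff]
      exact em_coeff (Ker (k l)) (cst (cc (κl l)) * (d l).F) 0
    have hsum : ∑ l ∈ Sn, (κl l : ℝ) * (evR z ((d l).F.coeff 0)).re =
        κ * ∑ l ∈ Sn, (evR z ((d l).F.coeff 0)).re / (m l : ℝ) := by
      rw [Finset.mul_sum]
      apply Finset.sum_congr rfl
      intro l hl
      have h3 : (0 : ℝ) < m l := by exact_mod_cast hm1 l hl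
      rw [hκκ l hl]
      push_cast
      field_simp
    have hQre : (evR z (Q.coeff 0) * (starRingEnd ℂ) (evR z gc)).re =
        κ * ‖evR z g‖ ^ 2 * (κ * ∑ l ∈ Sn, (evR z ((d l).F.coeff 0)).re / (m l : ℝ)) := by
      have h3 : evR z (Q.coeff 0) * (starRingEnd ℂ) (evR z gc) =
          ((κ * ‖evR z g‖ ^ 2 : ℝ) : ℂ) * ∑ l ∈ Sn, ((κl l : ℝ) : ℂ) *
            evR z ((d l).F.coeff 0) := by
        rw [hQ0, map_mul, map_sum, hgcz, map_mul (starRingEnd ℂ), Complex.conj_natCast]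
        have h4 : evR z g * (starRingEnd ℂ) (evR z g) = ((‖evR z g‖ ^ 2 : ℝ) : ℂ) := by
          rw [Complex.mul_conj, Complex.normSq_eq_norm_sq]
        have h5 : ∑ l ∈ Sn, evR z (cc (κl l) * (d l).F.coeff 0) =
            ∑ l ∈ Sn, ((κl l : ℝ) : ℂ) * evR z ((d l).F.coeff 0) := by
          apply Finset.sum_congr rfl
          intro l _
          rw [map_mul, hcce, Complex.ofReal_natCast]
        rw [h5, Complex.ofReal_mul, ← h4, Complex.ofReal_natCast]
        ring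
      rw [h3, Complex.re_ofReal_mul, Complex.re_sum]
      have h6 : ∑ l ∈ Sn, (((κl l : ℝ) : ℂ) * evR z ((d l).F.coeff 0)).re =
          ∑ l ∈ Sn, (κl l : ℝ) * (evR z ((d l).F.coeff 0)).re := by
        apply Finset.sum_congr rfl
        intro l _
        rw [Complex.re_ofReal_mul]
      rw [h6, hsum]
    obtain ⟨w, hw⟩ : ∃ w : ℂ, w = evR z (D.coeff 0 + (eta : RO ℤ) * D.coeff S) := ⟨_, rfl⟩
    have hXw : (evR z (XJ.coeff 0) * (starRingEnd ℂ) ((κ : ℂ) * w)).re =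
        (κ : ℝ) ^ 2 * (evR z (D.coeff 0) * (starRingEnd ℂ) w).re := by
      have h3 : evR z (XJ.coeff 0) * (starRingEnd ℂ) ((κ : ℂ) * w) =
          (((κ : ℝ) ^ 2 : ℝ) : ℂ) * (evR z (D.coeff 0) * (starRingEnd ℂ) w) := by
        rw [hX0', map_mul, Complex.conj_natCast]
        push_cast
        ring
      rw [h3, Complex.re_ofReal_mul]
    rw [hU0', ← hw, hXw, hQre, norm_mul, Complex.norm_natCast, hgcz, norm_mul,
      Complex.norm_natCast] at hcore
    rw [← hw]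
    have hgp2 : 0 < ‖evR z g‖ := norm_pos_iff.mpr hgz
    have hpos : 0 < (κ : ℝ) ^ 4 * ‖evR z g‖ ^ 2 := by positivity
    refine le_of_mul_le_mul_left ?_ hpos
    calc (κ : ℝ) ^ 4 * ‖evR z g‖ ^ 2 *
          ((∑ l ∈ Sn, (evR z ((d l).F.coeff 0)).re / (m l : ℝ)) * ‖w‖ ^ 2)
        = κ * ‖evR z g‖ ^ 2 * (κ * ∑ l ∈ Sn, (evR z ((d l).F.coeff 0)).re / (m l : ℝ)) *
          (κ * ‖w‖) ^ 2 := by ring
      _ ≤ (2 * ((κ : ℝ) ^ 2 * (evR z (D.coeff 0) * (starRingEnd ℂ) w).re) - (κ * ‖w‖) ^ 2) *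
          (κ * ‖evR z g‖) ^ 2 := hcore
      _ = (κ : ℝ) ^ 4 * ‖evR z g‖ ^ 2 *
          (2 * (evR z (D.coeff 0) * (starRingEnd ℂ) w).re - ‖w‖ ^ 2) := by ring
  -- continuity
  have hcont := (hEv ℤ).2.2.2
  refine H96.le_of_dense hZ g hg0 _ _ ?_ ?_ hmain
  · apply Continuous.mul
    · apply continuous_finsetSum
      intro l _
      exact (Complex.continuous_re.comp (hcont _)).div_const _
    · exact (hcont _).norm.pow 2
  · apply Continuous.sub
    · apply Continuous.mul continuous_const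
      exact Complex.continuous_re.comp ((hcont _).mul (Complex.continuous_conj.comp (hcont _)))
    · exact (hcont _).norm.pow 2


end Pool.Agent.B5.O1.H12
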