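import Pool.Agent.Lib.MP_b5021c_nt.IfaceO1
import Pool.Agent.Lib.MP_b5021c_nt.KO.H67.Bas

/-!
# MP_b5021c_nt, all `θ`, K ODD, row O1_BG: the B-load is good
-/

namespace Pool.Agent.B5.O1.H12

open scoped LaurentPolynomial
open Polynomial
open Pool.Agent.B5.KE
open Pool.Agent.B5.KO67
open Pool.Agent.B5.Nr.Sch (Loc)

/-- The positive solution of `1/p - p = j`. -/
theorem pj_ex {j : ℝ} (hj : 0 < j) : ∃ p : ℝ, 0 < p ∧ p⁻¹ - p = j := by
  have h0 : 0 ≤ j ^ 2 + 4 := by positivity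
  have h1 : Real.sqrt (j ^ 2 + 4) ^ 2 = j ^ 2 + 4 := Real.sq_sqrt h0
  have h2 : j < Real.sqrt (j ^ 2 + 4) := by
    apply Real.lt_sqrt_of_sq_lt
    linarith
  refine ⟨(Real.sqrt (j ^ 2 + 4) - j) / 2, by linarith, ?_⟩
  have h3 : (Real.sqrt (j ^ 2 + 4) - j) / 2 ≠ 0 := by
    have : 0 < (Real.sqrt (j ^ 2 + 4) - j) / 2 := by linarith
    exact this.ne'
  have h4 : ((Real.sqrt (j ^ 2 + 4) - j) / 2)⁻¹ = (Real.sqrt (j ^ 2 + 4) + j) / 2 := by
    rw [inv_eq_iff_eq_inv, eq_comm, inv_eq_iff_eq_inv]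
    apply eq_inv_of_mul_eq_one_left
    nlinarith
  rw [h4]
  ring

/-- `x ↦ 1/x - x` is decreasing. -/
theorem le_of_psi {x y : ℝ} (hx : 0 < x) (hy : 0 < y) (h : y⁻¹ - y ≤ x⁻¹ - x) : x ≤ y := by
  by_contra hcon
  push Not at hcon
  have h1 : x⁻¹ < y⁻¹ := by
    rw [inv_lt_inv₀ hx hy]
    exact hcon
  linarith

/-- Row O1_BG. -/
theorem o1b (hE1 : E1S) (hMV : MVS) (hMm : MmulS) (hPc : PCZS) (hClp : ClpS) (hFD : FDS)
    (hSf : SfzS) : O1bS := by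
  intro P L _ _ _ _ _ phi D S q f e a j W hS hR hu hdf
  obtain ⟨ha0, ha2, hθ2, hθ⟩ := ko_num W
  have hj := W.j2
  have hj' : (2 : ℝ) ≤ j := by exact_mod_cast hj
  have fp := W.min.fp
  have hD := fp.dd
  have hrk := W.rk
  have h2 : 2 ≤ Module.finrank ℤ L := by omega
  obtain ⟨p, hp0, hpj⟩ := pj_ex (j := (j : ℝ)) (by linarith)
  have hap : a ≤ p := le_of_psi ha0 hp0 (by rw [hpj]; exact W.mu)
  have hp1 : p < 1 := by
    by_contra hcon
    push Not at hcon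
    have h3 : p⁻¹ ≤ 1 := inv_le_one_of_one_le₀ hcon
    linarith
  refine ⟨p, hR.loc, hR.ne, hu, hj, hp0, hpj, hap, W.lt, ?_⟩
  obtain ⟨i0, h⟩ := exists_port hD hS
  obtain ⟨c, n, G, fd⟩ := hFD ℤ P L phi D S i0 (ld e 1) h
    ⟨hD, h2, hS, h, V0_ne hR (k := 1) (le_refl 1)⟩
  have hdr := hdf i0 h
  obtain ⟨hs, hbig⟩ := sf_B hSf W hR hu fd (Or.inl hdr)
  have hzero := zero_B hMV hMm hR fd hbig
  have hl := lob hPc hR.loc hR.u hR.ne (k := 1) (le_refl 1)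
  rw [pow_one] at hl
  rcases hl with h3 | ⟨b, hab, hb1, hb⟩
  · obtain ⟨b, hb1, hb2⟩ := hzero
    exact absurd hb2 (h3 b hb1)
  · have hb0 : 0 < b := lt_trans ha0 hab
    have hc0 : (q + X * f).coeff 0 = 1 := by
      rw [coeff_add, coeff_X_mul_zero, hR.loc.q0, add_zero]
    have hX : ((ld e 1 : (RO ℤ)ˣ) : RO ℤ) * D.coeff S = toLaurent (X * f) := by
      have h1 := ld_S hR 1
      rw [pow_one] at h1
      exact h1
    have hP' : ClassP b⁻¹ (D.coeff 0 + ((ld e 1 : (RO ℤ)ˣ) : RO ℤ) * D.coeff S) := by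
      rw [hX, hR.D0, ← map_add]
      exact classP_of hb0 hb1 hc0 hb
    obtain ⟨l, K, h4, h5, h6⟩ := good_g hE1 hMV hMm hClp fp fd hs (by omega) hP'
    have h7 := (W.ih (2 * j) (by omega) b⁻¹ P K ((phO phi S i0).comp (incl K))
      (res K (G l)) h6 h4 (by omega)).1 (even_two_mul j)
    push_cast at h7
    rw [one_div, inv_inv] at h7
    have hbp : b ≤ p := le_of_psi hb0 hp0 (by rw [hpj]; linarith)
    have h8 := sgn (k := 1) (le_refl 1) hR.loc.q0 hb0 (by rw [pow_one]; exact hb) hbp hp1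
    rw [pow_one, map_add, map_mul, aeval_X] at h8
    exact h8

end Pool.Agent.B5.O1.H12
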